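import Mathlib

set_option autoImplicit false
open Matrix Polynomial
open scoped BigOperators

namespace Pool.Agent.H470Z.Ehr

lemma exists_block {n : ℕ} (A : Matrix (Fin n) (Fin n) ℤ) :
    ∃ (d e : ℕ) (U : Matrix (Fin n) (Fin d ⊕ Fin e) ℤ) (U' : Matrix (Fin d ⊕ Fin e) (Fin n) ℤ)
      (B : Matrix (Fin d) (Fin e) ℤ) (C : Matrix (Fin e) (Fin e) ℤ),
      U * U' = 1 ∧ U' * U = 1 ∧ U' * A * U = fromBlocks 1 B 0 C ∧
      A.charpoly = (fromBlocks 1 B 0 C).charpoly ∧
      ∀ y : Fin e → ℤ, B *ᵥ y = 0 → C *ᵥ y = y → y = 0 := by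
  classical
  let f : (Fin n → ℤ) →ₗ[ℤ] (Fin n → ℤ) := Matrix.toLin' (A - 1)
  let K := LinearMap.ker f
  obtain ⟨g, hg⟩ := LinearMap.exists_rightInverse_of_surjective f.rangeRestrict
    (LinearMap.range_rangeRestrict f)
  have hg' : ∀ y : LinearMap.range f, f (g y) = y := fun y => by
    have := LinearMap.congr_fun hg y
    exact congrArg Subtype.val this
  let p : (Fin n → ℤ) →ₗ[ℤ] K := LinearMap.codRestrict K
    (LinearMap.id - g.comp f.rangeRestrict) (fun x => by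
      simp only [K, LinearMap.mem_ker, LinearMap.sub_apply, LinearMap.id_apply,
        LinearMap.comp_apply, map_sub, hg']
      simp)
  have hp : ∀ x : K, p x = x := fun x => by
    apply Subtype.ext
    have : f.rangeRestrict x = 0 := Subtype.ext x.2
    simp [p, this]
  have hc := LinearMap.isCompl_of_proj hp
  set W := LinearMap.ker p with hW
  let bK := Module.finBasis ℤ K
  let bW := Module.finBasis ℤ W
  let b := (bK.prod bW).map (Submodule.prodEquivOfIsCompl K W hc)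
  have hb1 : ∀ i, b (Sum.inl i) = bK i := fun i => by simp [b]
  have hb2 : ∀ j, b (Sum.inr j) = bW j := fun j => by simp [b]
  let b0 := Pi.basisFun ℤ (Fin n)
  let U := b0.toMatrix b
  let U' := b.toMatrix b0
  have hU : ∀ i k, U i k = b k i := fun i k => by simp [U, b0, Module.Basis.toMatrix_apply]
  have hUU' : U * U' = 1 := Module.Basis.toMatrix_mul_toMatrix_flip _ _
  have hU'U : U' * U = 1 := Module.Basis.toMatrix_mul_toMatrix_flip _ _
  have hfix : ∀ x, x ∈ K ↔ A *ᵥ x = x := fun x => by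
    simp only [K, f, LinearMap.mem_ker, Matrix.toLin'_apply, Matrix.sub_mulVec, Matrix.one_mulVec,
      sub_eq_zero]
  have hcol : ∀ k i, (U' * A * U) k (Sum.inl i) = (U' * U) k (Sum.inl i) := by
    intro k i
    rw [Matrix.mul_assoc, Matrix.mul_apply, Matrix.mul_apply]
    refine Finset.sum_congr rfl fun r _ => ?_
    congr 1
    have h1 := congrFun ((hfix _).1 (bK i).2) r
    rw [Matrix.mul_apply, hU, hb1, ← h1]
    simp only [hU, hb1, Matrix.mulVec, dotProduct]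
  have hblock : U' * A * U = fromBlocks 1 (U' * A * U).toBlocks₁₂ 0 (U' * A * U).toBlocks₂₂ := by
    conv_lhs => rw [← Matrix.fromBlocks_toBlocks (U' * A * U)]
    congr 1
    · ext i j
      simp only [Matrix.toBlocks₁₁, Matrix.of_apply, hcol, hU'U]
      simp [Matrix.one_apply]
    · ext i j
      simp only [Matrix.toBlocks₂₁, Matrix.of_apply, hcol, hU'U]
      simp
  refine ⟨_, _, U, U', (U' * A * U).toBlocks₁₂, (U' * A * U).toBlocks₂₂, hUU', hU'U, hblock,
    ?_, ?_⟩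
  · rw [← hblock, ← Matrix.charpoly_toLin' A, ← LinearMap.charpoly_toMatrix _ b]
    congr 1
    have := basis_toMatrix_mul_linearMap_toMatrix_mul_basis_toMatrix b b0 b b0 (Matrix.toLin' A)
    rw [← this]
    simp [U, U', b0]
  · intro y h1 h2
    set z : Fin (Module.finrank ℤ K) ⊕ Fin (Module.finrank ℤ W) → ℤ := Sum.elim 0 y with hz
    have h3 : (U' * A * U) *ᵥ z = z := by
      rw [hblock, hz, Matrix.fromBlocks_mulVec]
      simp only [Sum.elim_comp_inl, Sum.elim_comp_inr, h1, h2, Matrix.mulVec_zero, add_zero,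
        zero_add]
    have h4 : A *ᵥ (U *ᵥ z) = U *ᵥ z := by
      conv_rhs => rw [← h3]
      rw [Matrix.mulVec_mulVec, Matrix.mulVec_mulVec, ← Matrix.mul_assoc, ← Matrix.mul_assoc, hUU',
        Matrix.one_mul]
    have h5 : U *ᵥ z ∈ W := by
      have : U *ᵥ z = ∑ j, y j • (bW j : Fin n → ℤ) := by
        ext r
        simp only [Matrix.mulVec, dotProduct, Fintype.sum_sum_type, hz, Sum.elim_inl, Sum.elim_inr,
          Pi.zero_apply, mul_zero, Finset.sum_const_zero, zero_add, Finset.sum_apply,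
          Pi.smul_apply, smul_eq_mul]
        refine Finset.sum_congr rfl fun j _ => ?_
        rw [hU, hb2, mul_comm]
      rw [this]
      exact W.sum_mem fun j _ => W.smul_mem _ (bW j).2
    have h6 : U *ᵥ z = 0 :=
      (Submodule.disjoint_def.1 hc.disjoint) _ ((hfix _).2 h4) h5
    have h7 : z = 0 := by
      rw [← Matrix.one_mulVec z, ← hU'U, ← Matrix.mulVec_mulVec, h6, Matrix.mulVec_zero]
    ext j
    exact congrFun h7 (Sum.inr j)

section blocks
variable {d e : ℕ} (B : Matrix (Fin d) (Fin e) ℤ) (C : Matrix (Fin e) (Fin e) ℤ)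

lemma block_pow (k : ℕ) : ∃ B' : Matrix (Fin d) (Fin e) ℤ,
    (fromBlocks (1 : Matrix (Fin d) (Fin d) ℤ) B 0 C) ^ k = fromBlocks 1 B' 0 (C ^ k) ∧
      ∀ y : Fin e → ℤ, C *ᵥ y = y → B' *ᵥ y = (k : ℤ) • (B *ᵥ y) := by
  induction k with
  | zero => exact ⟨0, by simp [Matrix.fromBlocks_one], by simp⟩
  | succ k ih =>
    obtain ⟨B', h1, h2⟩ := ih
    refine ⟨B + B' * C, ?_, ?_⟩
    · rw [pow_succ, h1, Matrix.fromBlocks_multiply]
      simp [pow_succ]
    · intro y hy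
      rw [Matrix.add_mulVec, ← Matrix.mulVec_mulVec, hy, h2 y hy]
      push_cast
      rw [add_smul, one_smul, add_comm]

lemma det_pos {N : ℕ} (hN : 0 < N) (hpow : (fromBlocks (1 : Matrix (Fin d) (Fin d) ℤ) B 0 C) ^ N = 1)
    (hinj : ∀ y : Fin e → ℤ, B *ᵥ y = 0 → C *ᵥ y = y → y = 0) : 0 < (1 - C).det := by
  obtain ⟨B', h1, h2⟩ := block_pow B C N
  rw [hpow, ← Matrix.fromBlocks_one, Matrix.fromBlocks_inj] at h1
  obtain ⟨-, hB', -, hC⟩ := h1
  have hne : (1 - C).det ≠ 0 := by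
    intro h0
    obtain ⟨y, hy0, hy⟩ := Matrix.exists_mulVec_eq_zero_iff.2 h0
    rw [Matrix.sub_mulVec, Matrix.one_mulVec, sub_eq_zero] at hy
    have := h2 y hy.symm
    rw [← hB', Matrix.zero_mulVec] at this
    have h3 : B *ᵥ y = 0 := by
      rcases smul_eq_zero.1 this.symm with h | h
      · exact absurd h (by exact_mod_cast hN.ne')
      · exact h
    exact hy0 (hinj y h3 hy.symm)
  set Cr : Matrix (Fin e) (Fin e) ℝ := C.map (Int.cast : ℤ → ℝ) with hCr
  have hCrN : Cr ^ N = 1 := by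
    have := congrArg (fun M : Matrix (Fin e) (Fin e) ℤ => (Int.castRingHom ℝ).mapMatrix M) hC
    simp only [map_one, map_pow] at this
    exact this.symm
  let F : ℝ → ℝ := fun s => (1 - s • Cr).det
  have hF : Continuous F := by
    apply Continuous.matrix_det
    fun_prop
  have hF1 : F 1 = ((1 - C).det : ℤ) := by
    rw [Int.cast_det]
    simp only [F, one_smul, hCr]
    congr 1
    ext i j
    simp [Matrix.one_apply]
  have hF0 : F 0 = 1 := by simp [F]
  by_contra hneg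
  have hneg' : F 1 < 0 := by
    rw [hF1]
    exact_mod_cast lt_of_le_of_ne (not_lt.1 hneg) hne
  obtain ⟨s, hs, hs0⟩ : (0 : ℝ) ∈ F '' Set.Icc 0 1 :=
    intermediate_value_Icc' zero_le_one hF.continuousOn ⟨hneg'.le, by rw [hF0]; exact zero_le_one⟩
  have hs1 : s < 1 := lt_of_le_of_ne hs.2 (fun h => by rw [h] at hs0; linarith)
  obtain ⟨y, hy0, hy⟩ := Matrix.exists_mulVec_eq_zero_iff.2 hs0
  rw [Matrix.sub_mulVec, Matrix.one_mulVec, sub_eq_zero, Matrix.smul_mulVec] at hy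
  have hk : ∀ k : ℕ, y = s ^ k • ((Cr ^ k) *ᵥ y) := by
    intro k
    induction k with
    | zero => simp
    | succ k ih =>
      rw [pow_succ, pow_succ, ← Matrix.mulVec_mulVec, mul_smul, ← Matrix.mulVec_smul, ← hy]
      exact ih
  have h3 := hk N
  rw [hCrN, Matrix.one_mulVec] at h3
  have h4 : (1 - s ^ N) • y = 0 := by rw [sub_smul, one_smul, ← h3, sub_self]
  rcases smul_eq_zero.1 h4 with h | h
  · have : s ^ N < 1 := pow_lt_one₀ hs.1 hs1 hN.ne'
    linarith
  · exact hy0 h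

lemma D_eq (hne : (1 - C).det ≠ 0) :
    Polynomial.eval 1 (Polynomial.divByMonic (fromBlocks 1 B 0 C).charpoly
      ((Polynomial.X - Polynomial.C (1 : ℤ)) ^
        ((fromBlocks 1 B 0 C).charpoly.rootMultiplicity 1))) = (1 - C).det := by
  have h1 : C.charpoly.eval 1 = (1 - C).det := by
    rw [Matrix.eval_charpoly]; simp
  have h2 : (fromBlocks 1 B 0 C).charpoly = (X - Polynomial.C (1 : ℤ)) ^ d * C.charpoly := by
    rw [Matrix.charpoly_fromBlocks_zero₂₁, Matrix.charpoly_one]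
    simp
  have h3 : (fromBlocks 1 B 0 C).charpoly.rootMultiplicity 1 = d := by
    rw [h2, Polynomial.rootMultiplicity_mul (h2 ▸ (Matrix.charpoly_monic _).ne_zero),
      Polynomial.rootMultiplicity_X_sub_C_pow, Polynomial.rootMultiplicity_eq_zero, add_zero]
    rw [Polynomial.IsRoot, h1]
    exact hne
  rw [h3, h2, Polynomial.mul_divByMonic_cancel_left _ ((Polynomial.monic_X_sub_C _).pow _), h1]

lemma det_int {ι : Type} [Fintype ι] [DecidableEq ι] (M : Matrix ι ι ℝ)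
    (h : ∀ i j, ∃ z : ℤ, (z : ℝ) = M i j) : ∃ z : ℤ, (z : ℝ) = M.det := by
  choose Z hZ using h
  refine ⟨(Matrix.of Z).det, ?_⟩
  rw [Int.cast_det]
  congr 1
  ext i j
  simp [hZ]

/-- the determinant identity behind the integrality -/
lemma key_det (Br : Matrix (Fin d) (Fin e) ℝ) (Cr : Matrix (Fin e) (Fin e) ℝ)
    (Y : Matrix (Fin d) (Fin d) ℝ) (H : Matrix (Fin e) (Fin d) ℝ) (Γ : Matrix (Fin e) (Fin e) ℝ)
    (h1 : ∀ i j, ∃ z : ℤ, (z : ℝ) = (Y - Br * H) i j)
    (h2 : ∀ i j, ∃ z : ℤ, (z : ℝ) = ((1 - Cr) * H : Matrix (Fin e) (Fin d) ℝ) i j)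
    (h3 : ∀ i j, ∃ z : ℤ, (z : ℝ) = (Br * Γ) i j)
    (h4 : ∀ i j, ∃ z : ℤ, (z : ℝ) = ((1 - Cr) * Γ) i j) :
    ∃ z : ℤ, (z : ℝ) = (1 - Cr).det * Y.det * Γ.det := by
  have e : fromBlocks 1 (-Br) 0 (1 - Cr) * fromBlocks Y 0 H Γ =
      fromBlocks (Y - Br * H) (-(Br * Γ)) ((1 - Cr) * H) ((1 - Cr) * Γ) := by
    rw [Matrix.fromBlocks_multiply]
    simp [sub_eq_add_neg]
  obtain ⟨z, hz⟩ := det_int
    (fromBlocks (Y - Br * H) (-(Br * Γ)) ((1 - Cr) * H) ((1 - Cr) * Γ)) (by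
      rintro (i | i) (j | j)
      · exact h1 i j
      · obtain ⟨z, hz⟩ := h3 i j
        exact ⟨-z, by simp [hz]⟩
      · exact h2 i j
      · exact h4 i j)
  refine ⟨z, ?_⟩
  rw [hz, ← e, Matrix.det_mul, Matrix.det_fromBlocks_zero₂₁, Matrix.det_fromBlocks_zero₁₂]
  simp [mul_assoc]

lemma key_div (y0 : Fin e → ℝ) (t1 : Fin d → ℤ) (t2 : Fin e → ℤ)
    (hy1 : (B.map (Int.cast : ℤ → ℝ)) *ᵥ y0 = fun i => (t1 i : ℝ))
    (hy2 : (1 - C.map (Int.cast : ℤ → ℝ)) *ᵥ y0 = fun i => (t2 i : ℝ))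
    (Y : Matrix (Fin d) (Fin d) ℝ) (H : Matrix (Fin e) (Fin d) ℝ)
    (h1 : ∀ i j, ∃ z : ℤ, (z : ℝ) = (Y - B.map (Int.cast : ℤ → ℝ) * H) i j)
    (h2 : ∀ i j, ∃ z : ℤ, (z : ℝ) =
      ((1 - C.map (Int.cast : ℤ → ℝ)) * H : Matrix (Fin e) (Fin d) ℝ) i j) :
    ∃ X : ℤ, (X : ℝ) = (1 - C.map (Int.cast : ℤ → ℝ)).det * Y.det ∧
      ∀ j, ∃ z : ℤ, (z : ℝ) = X * y0 j := by
  obtain ⟨X, hX⟩ := key_det _ _ Y H 1 h1 h2 (fun i j => ⟨B i j, by simp⟩)
    (fun i j => ⟨(1 - C) i j, by simp [Matrix.one_apply]⟩)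
  rw [Matrix.det_one, mul_one] at hX
  refine ⟨X, hX, fun j => ?_⟩
  have hmul : ∀ {m : Type} (M : Matrix m (Fin e) ℝ) (i : m) (k : Fin e),
      (M * (1 : Matrix (Fin e) (Fin e) ℝ).updateCol j y0) i k =
        if k = j then (M *ᵥ y0) i else M i k := by
    intro m M i k
    by_cases hk : k = j
    · subst hk
      simp [Matrix.mul_apply, Matrix.mulVec, dotProduct]
    · simp [Matrix.mul_apply, hk, Matrix.one_apply]
  obtain ⟨z, hz⟩ := key_det _ _ Y H ((1 : Matrix (Fin e) (Fin e) ℝ).updateCol j y0) h1 h2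
    (fun i k => by
      rw [hmul, hy1]
      split_ifs
      · exact ⟨_, rfl⟩
      · exact ⟨B i k, by simp⟩)
    (fun i k => by
      rw [hmul, hy2]
      split_ifs
      · exact ⟨_, rfl⟩
      · exact ⟨(1 - C) i k, by simp [Matrix.one_apply]⟩)
  refine ⟨z, ?_⟩
  rw [hz, ← hX, ← Matrix.cramer_apply, Matrix.cramer_one]
  rfl

end blocks

lemma avg {E F : Type*} [AddCommGroup E] [Module ℝ E] [AddCommGroup F] [Module ℝ F]
    (A : E →ₗ[ℝ] E) (t : E) (N : ℕ) (hN : 0 < N)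
    (hT : ∀ x, (fun x => A x + t)^[N] x = x) (P : Set E) (hP : Convex ℝ P)
    (hPT : ∀ x ∈ P, A x + t ∈ P) (L : E →ₗ[ℝ] F) (hL : ∀ x, L (A x + t) = L x)
    (p : E) (hp : p ∈ P) : ∃ a ∈ P, A a + t = a ∧ L a = L p := by
  set T : E → E := fun x => A x + t with hTdef
  have hN' : (N : ℝ) ≠ 0 := by exact_mod_cast hN.ne'
  have hmem : ∀ k, T^[k] p ∈ P := fun k => by
    induction k with
    | zero => exact hp
    | succ k ih => rw [Function.iterate_succ_apply']; exact hPT _ ih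
  have hLk : ∀ k, L (T^[k] p) = L p := fun k => by
    induction k with
    | zero => rfl
    | succ k ih => rw [Function.iterate_succ_apply', ← ih]; exact hL _
  refine ⟨∑ k ∈ Finset.range N, (N : ℝ)⁻¹ • T^[k] p, ?_, ?_, ?_⟩
  · refine hP.sum_mem (fun _ _ => by positivity) ?_ (fun k _ => hmem k)
    simp [hN']
  · have h1 : ∑ k ∈ Finset.range N, T^[k + 1] p = ∑ k ∈ Finset.range N, T^[k] p := by
      have e1 := Finset.sum_range_succ (fun k => T^[k] p) N
      have e2 := Finset.sum_range_succ' (fun k => T^[k] p) N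
      rw [e1, hT] at e2
      simp only [Function.iterate_zero, id] at e2
      exact (add_right_cancel e2).symm
    rw [← Finset.smul_sum]
    conv_rhs => rw [← h1]
    simp only [Function.iterate_succ_apply', hTdef, Finset.sum_add_distrib, map_smul, map_sum,
      smul_add, Finset.sum_const, Finset.card_range, ← Nat.cast_smul_eq_nsmul ℝ, smul_smul,
      inv_mul_cancel₀ hN', one_smul]
  · simp only [map_sum, map_smul, hLk, Finset.sum_const, Finset.card_range,
      ← Nat.cast_smul_eq_nsmul ℝ, smul_smul, mul_inv_cancel₀ hN', one_smul]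

end Pool.Agent.H470Z.Ehr
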