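import Mathlib

set_option autoImplicit false
open MeasureTheory Set
open scoped BigOperators

namespace Pool.Agent.H470Z.Ehr

theorem vol_simplex_aux (n : ℕ) : ∀ r : ℝ, 0 < r →
    volume {c : Fin n → ℝ | (∀ i, 0 < c i) ∧ ∑ i, c i < r} =
      ENNReal.ofReal (r ^ n / (n.factorial : ℝ)) := by
  induction n with
  | zero =>
    intro r hr
    have : {c : Fin 0 → ℝ | (∀ i, 0 < c i) ∧ ∑ i, c i < r} = Set.univ := by
      ext c; simp [hr]
    rw [this]
    simp [MeasureTheory.Measure.volume_pi_eq_dirac (0 : Fin 0 → ℝ)]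
  | succ n ih =>
    intro r hr
    let T : Set (ℝ × (Fin n → ℝ)) := {q | 0 < q.1 ∧ (∀ i, 0 < q.2 i) ∧ q.1 + ∑ i, q.2 i < r}
    have hT : MeasurableSet T := by
      have h1 : IsOpen T := by
        have e1 : T = {q | 0 < q.1} ∩ (⋂ i, {q : ℝ × (Fin n → ℝ) | 0 < q.2 i}) ∩
            {q | q.1 + ∑ i, q.2 i < r} := by
          ext q; simp [T, and_assoc]
        rw [e1]
        refine IsOpen.inter (IsOpen.inter ?_ ?_) ?_
        · exact isOpen_lt continuous_const continuous_fst
        · refine isOpen_iInter_of_finite fun i => ?_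
          exact isOpen_lt continuous_const ((continuous_apply i).comp continuous_snd)
        · refine isOpen_lt ?_ continuous_const
          fun_prop
      exact h1.measurableSet
    have hmp := MeasureTheory.volume_preserving_piFinSuccAbove (fun _ : Fin (n + 1) => ℝ) 0
    have hpre : {c : Fin (n + 1) → ℝ | (∀ i, 0 < c i) ∧ ∑ i, c i < r} =
        (MeasurableEquiv.piFinSuccAbove (fun _ : Fin (n + 1) => ℝ) 0) ⁻¹' T := by
      ext c
      simp only [Set.mem_ofPred_eq, Set.mem_preimage, T, MeasurableEquiv.piFinSuccAbove_apply,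
        Fin.insertNthEquiv_zero]
      rw [Fin.forall_fin_succ, Fin.sum_univ_succ, and_assoc]
      rfl
    rw [hpre, hmp.measure_preimage hT.nullMeasurableSet]
    rw [Measure.volume_eq_prod, Measure.prod_apply hT]
    have hsec : ∀ t : ℝ, volume (Prod.mk t ⁻¹' T) =
        (Set.Ioo 0 r).indicator (fun t => ENNReal.ofReal ((r - t) ^ n / (n.factorial : ℝ))) t := by
      intro t
      by_cases ht : t ∈ Set.Ioo 0 r
      · rw [Set.indicator_of_mem ht, ← ih (r - t) (by linarith [ht.2])]
        congr 1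
        ext c
        simp only [Set.mem_preimage, T, Set.mem_ofPred_eq]
        constructor
        · rintro ⟨_, h2, h3⟩
          exact ⟨h2, by linarith⟩
        · rintro ⟨h2, h3⟩
          exact ⟨ht.1, h2, by linarith⟩
      · rw [Set.indicator_of_notMem ht]
        have : Prod.mk t ⁻¹' T = ∅ := by
          ext c
          simp only [Set.mem_preimage, T, Set.mem_ofPred_eq, Set.mem_empty_iff_false, iff_false]
          rintro ⟨h1, h2, h3⟩
          apply ht
          refine ⟨h1, ?_⟩
          have : 0 ≤ ∑ i, c i := Finset.sum_nonneg fun i _ => (h2 i).le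
          linarith
        rw [this, measure_empty]
    simp_rw [hsec]
    rw [lintegral_indicator measurableSet_Ioo]
    have hint : IntervalIntegrable (fun t : ℝ => (r - t) ^ n / (n.factorial : ℝ)) volume 0 r := by
      apply Continuous.intervalIntegrable
      fun_prop
    have hIoc : IntegrableOn (fun t : ℝ => (r - t) ^ n / (n.factorial : ℝ)) (Set.Ioo 0 r) volume :=
      ((intervalIntegrable_iff_integrableOn_Ioo_of_le hr.le).1 hint)
    rw [← ofReal_integral_eq_lintegral_ofReal hIoc]
    · congr 1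
      rw [← integral_Ioc_eq_integral_Ioo, ← intervalIntegral.integral_of_le hr.le]
      have : ∫ t in (0:ℝ)..r, (r - t) ^ n / (n.factorial : ℝ) =
          (∫ t in (0:ℝ)..r, t ^ n) / (n.factorial : ℝ) := by
        rw [intervalIntegral.integral_div]
        congr 1
        have := intervalIntegral.integral_comp_sub_left (fun t : ℝ => t ^ n) r (a := 0) (b := r)
        rw [this]; simp
      rw [this, integral_pow, Nat.factorial_succ]
      push_cast
      have h1 : (n.factorial : ℝ) ≠ 0 := by exact_mod_cast n.factorial_ne_zero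
      have h2 : (n : ℝ) + 1 ≠ 0 := by positivity
      field_simp
      simp
    · rw [Filter.EventuallyLE, ae_restrict_iff' measurableSet_Ioo]
      refine Filter.Eventually.of_forall fun t ht => ?_
      simp only [Pi.zero_apply]
      have : 0 ≤ r - t := by linarith [ht.2]
      positivity

lemma null_fun {d : ℕ} (f : (ℝ × (Fin d → ℝ)) →ₗ[ℝ] ℝ) (hf : f ≠ 0) :
    volume {x : Fin d → ℝ | f (1, x) = 0} = 0 := by
  rcases Set.eq_empty_or_nonempty {x : Fin d → ℝ | f (1, x) = 0} with h | ⟨x0, hx0⟩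
  · rw [h, measure_empty]
  let g : (Fin d → ℝ) →ₗ[ℝ] ℝ := f.comp (LinearMap.inr ℝ ℝ (Fin d → ℝ))
  have hg : LinearMap.ker g ≠ ⊤ := by
    intro h
    apply hf
    have h0 : ∀ y, f (0, y) = 0 := fun y => by
      have : y ∈ LinearMap.ker g := h ▸ Submodule.mem_top
      simpa [g] using this
    refine LinearMap.ext fun p => ?_
    have e : p = p.1 • ((1 : ℝ), x0) + ((0 : ℝ), p.2 - p.1 • x0) := by
      ext <;> simp
    rw [e, map_add, map_smul, h0, hx0]
    simp
  refine measure_mono_null (t := (AffineSubspace.mk' x0 (LinearMap.ker g) : Set _)) ?_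
    (Measure.addHaar_affineSubspace _ _ ?_)
  · intro x hx
    simp only [SetLike.mem_coe, AffineSubspace.mem_mk', vsub_eq_sub, LinearMap.mem_ker]
    have e : ((0 : ℝ), x - x0) = ((1 : ℝ), x) - ((1 : ℝ), x0) := by ext <;> simp
    have : g (x - x0) = f ((0 : ℝ), x - x0) := by simp [g]
    rw [this, e, map_sub, hx, hx0, sub_zero]
  · intro h
    apply hg
    rw [← AffineSubspace.direction_mk' x0 (LinearMap.ker g), h, AffineSubspace.direction_top]

lemma vol_closed_simplex (n : ℕ) :
    volume {c : Fin n → ℝ | (∀ i, 0 ≤ c i) ∧ ∑ i, c i ≤ 1} =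
      ENNReal.ofReal (1 / (n.factorial : ℝ)) := by
  have h := vol_simplex_aux n 1 one_pos
  rw [one_pow] at h
  rw [← h]
  apply le_antisymm
  · have hN1 : volume (⋃ i : Fin n, {c : Fin n → ℝ | c i = 0}) = 0 := by
      refine measure_iUnion_null fun i => ?_
      have := null_fun ((LinearMap.proj i).comp (LinearMap.snd ℝ ℝ (Fin n → ℝ))) (by
        intro h0
        have := LinearMap.congr_fun h0 ((0 : ℝ), fun _ => (1 : ℝ))
        simp at this)
      simpa using this
    have hN2 : volume {c : Fin n → ℝ | ∑ i, c i = 1} = 0 := by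
      have := null_fun (LinearMap.fst ℝ ℝ (Fin n → ℝ) -
        ∑ i, (LinearMap.proj i).comp (LinearMap.snd ℝ ℝ (Fin n → ℝ))) (by
        intro h0
        have := LinearMap.congr_fun h0 ((1 : ℝ), fun _ => (0 : ℝ))
        simp at this)
      refine measure_mono_null ?_ this
      intro c hc
      simp only [Set.mem_ofPred_eq] at hc ⊢
      simp [hc]
    calc _ ≤ volume ({c : Fin n → ℝ | (∀ i, 0 < c i) ∧ ∑ i, c i < 1} ∪
          ((⋃ i : Fin n, {c : Fin n → ℝ | c i = 0}) ∪ {c : Fin n → ℝ | ∑ i, c i = 1})) := by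
          refine measure_mono fun c hc => ?_
          by_cases h1 : ∀ i, 0 < c i
          · by_cases h2 : ∑ i, c i < 1
            · exact Or.inl ⟨h1, h2⟩
            · exact Or.inr (Or.inr (le_antisymm hc.2 (not_lt.1 h2)))
          · push Not at h1
            obtain ⟨i, hi⟩ := h1
            exact Or.inr (Or.inl (Set.mem_iUnion.2 ⟨i, le_antisymm hi (hc.1 i)⟩))
      _ ≤ _ := by
          refine (measure_union_le _ _).trans ?_
          rw [measure_union_null hN1 hN2, add_zero]
  · exact measure_mono fun c hc => ⟨fun i => (hc.1 i).le, hc.2.le⟩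

lemma conv_range {σ E : Type*} [Fintype σ] [AddCommGroup E] [Module ℝ E] (q : σ → E) :
    convexHull ℝ (Set.range q) = (fun w : σ → ℝ => ∑ s, w s • q s) '' stdSimplex ℝ σ := by
  classical
  have : (fun w : σ → ℝ => ∑ s, w s • q s) = Fintype.linearCombination ℝ q := by
    ext w; simp [Fintype.linearCombination_apply]
  rw [this, ← convexHull_rangle_single_eq_stdSimplex, LinearMap.image_convexHull,
    ← Set.range_comp]
  congr 2
  ext s
  simp

lemma vol_simplex {d : ℕ} (v : Fin (d + 1) → (Fin d → ℝ)) :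
    (d.factorial : ℝ) * volume.real (convexHull ℝ (Set.range v)) =
      |(Matrix.of fun i => v (Fin.succ i) - v 0).det| := by
  set M : Matrix (Fin d) (Fin d) ℝ := Matrix.of fun i => v (Fin.succ i) - v 0 with hM
  have e : convexHull ℝ (Set.range v) = (fun x => v 0 + x) '' ((Matrix.toLin' M.transpose) ''
      {c : Fin d → ℝ | (∀ i, 0 ≤ c i) ∧ ∑ i, c i ≤ 1}) := by
    have hlin : ∀ c : Fin d → ℝ, Matrix.toLin' M.transpose c =
        ∑ i, c i • v (Fin.succ i) - (∑ i, c i) • v 0 := by
      intro c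
      ext j
      simp only [hM, Matrix.toLin'_apply, Matrix.mulVec, dotProduct, Matrix.transpose_apply,
        Matrix.of_apply, Pi.sub_apply, Finset.sum_apply, Pi.smul_apply, smul_eq_mul,
        Finset.sum_mul, ← Finset.sum_sub_distrib]
      refine Finset.sum_congr rfl fun i _ => by ring
    rw [conv_range]
    ext x
    constructor
    · rintro ⟨w, hw, rfl⟩
      have h1 := hw.2
      rw [Fin.sum_univ_succ] at h1
      refine ⟨_, ⟨fun i => w (Fin.succ i), ⟨fun i => hw.1 _, ?_⟩, rfl⟩, ?_⟩
      · have := hw.1 0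
        simp only at this ⊢
        linarith
      · simp only [hlin, Fin.sum_univ_succ]
        have : w 0 = 1 - ∑ i, w (Fin.succ i) := by linarith
        rw [this, sub_smul, one_smul]
        abel
    · rintro ⟨_, ⟨c, hc, rfl⟩, rfl⟩
      refine ⟨Fin.cons (1 - ∑ i, c i) c, ⟨?_, ?_⟩, ?_⟩
      · intro j
        refine Fin.cases ?_ (fun i => ?_) j
        · simp only [Fin.cons_zero]; linarith [hc.2]
        · simp only [Fin.cons_succ]; exact hc.1 i
      · simp [Fin.sum_univ_succ]
      · simp only [hlin, Fin.sum_univ_succ, Fin.cons_zero, Fin.cons_succ, sub_smul, one_smul]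
        abel
  rw [e, Measure.real, Set.image_add_left, measure_preimage_add, Measure.addHaar_image_linearMap,
    vol_closed_simplex, LinearMap.det_toLin', Matrix.det_transpose, ← ENNReal.ofReal_mul (abs_nonneg _),
    ENNReal.toReal_ofReal (by positivity)]
  have h1 : (d.factorial : ℝ) ≠ 0 := by exact_mod_cast d.factorial_ne_zero
  field_simp

lemma exists_generic {σ V : Type*} [Fintype σ] [DecidableEq σ] [AddCommGroup V] [Module ℝ V]
    (u : σ → V) : ∃ h : σ → ℝ, ∀ T : Finset σ, ∀ s, s ∉ T →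
      (∃ a : σ → ℝ, u s = ∑ t ∈ T, a t • u t) →
      ∃ a : σ → ℝ, u s = ∑ t ∈ T, a t • u t ∧ ∑ t ∈ T, a t * h t ≠ h s := by
  classical
  let a : Finset σ → σ → σ → ℝ := fun T s =>
    if h : ∃ a : σ → ℝ, u s = ∑ t ∈ T, a t • u t then h.choose else 0
  let φ : Finset σ → σ → ((σ → ℝ) →ₗ[ℝ] ℝ) := fun T s =>
    (∑ t ∈ T, a T s t • LinearMap.proj t) - LinearMap.proj s
  have hφ : ∀ T s (h : σ → ℝ), φ T s h = ∑ t ∈ T, a T s t * h t - h s := by
    intro T s h
    simp [φ]
  have hnull : volume (⋃ p : {p : Finset σ × σ // p.2 ∉ p.1},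
      (LinearMap.ker (φ p.1.1 p.1.2) : Set (σ → ℝ))) = 0 := by
    refine measure_iUnion_null fun p => Measure.addHaar_submodule _ _ fun h => ?_
    have : (Pi.single p.1.2 (1 : ℝ) : σ → ℝ) ∈ LinearMap.ker (φ p.1.1 p.1.2) :=
      h ▸ Submodule.mem_top
    rw [LinearMap.mem_ker, hφ, Finset.sum_eq_zero] at this
    · simp at this
    · intro t ht
      have : t ≠ p.1.2 := fun e => p.2 (e ▸ ht)
      simp [this]
  have hne : (⋃ p : {p : Finset σ × σ // p.2 ∉ p.1},
      (LinearMap.ker (φ p.1.1 p.1.2) : Set (σ → ℝ))) ≠ Set.univ := by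
    intro h
    rw [h] at hnull
    exact (isOpen_univ.measure_pos volume Set.univ_nonempty).ne' hnull
  obtain ⟨h, hh⟩ := (Set.ne_univ_iff_exists_notMem _).1 hne
  refine ⟨h, fun T s hs hex => ⟨a T s, ?_, ?_⟩⟩
  · simp only [a, dif_pos hex]
    exact hex.choose_spec
  · intro e
    apply hh
    refine Set.mem_iUnion.2 ⟨⟨(T, s), hs⟩, ?_⟩
    simp only [SetLike.mem_coe, LinearMap.mem_ker, hφ, e, sub_self]

/-- lower facets of the lifted point configuration -/
def Low {d : ℕ} {σ : Type} (q : σ → (Fin d → ℝ)) (h : σ → ℝ) (T : Finset σ) : Prop :=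
  T.card = d + 1 ∧ ∃ l : (ℝ × (Fin d → ℝ)) →ₗ[ℝ] ℝ,
    (∀ t ∈ T, l (1, q t) = h t) ∧ ∀ s, s ∉ T → l (1, q s) < h s

lemma cover {d : ℕ} {σ : Type} [Fintype σ] [DecidableEq σ] (q : σ → (Fin d → ℝ)) (h : σ → ℝ)
    (hh : ∀ T : Finset σ, ∀ s, s ∉ T →
      (∃ a : σ → ℝ, ((1 : ℝ), q s) = ∑ t ∈ T, a t • ((1 : ℝ), q t)) →
      ∃ a : σ → ℝ, ((1 : ℝ), q s) = ∑ t ∈ T, a t • ((1 : ℝ), q t) ∧ ∑ t ∈ T, a t * h t ≠ h s)
    (x : Fin d → ℝ) (hx : x ∈ convexHull ℝ (Set.range q))
    (hgen : ∀ T : Finset σ,
      ((1 : ℝ), x) ∈ Submodule.span ℝ ((fun s => ((1 : ℝ), q s)) '' (T : Set σ)) →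
      Submodule.span ℝ ((fun s => ((1 : ℝ), q s)) '' (T : Set σ)) = ⊤) :
    ∃ T : Finset σ, Low q h T ∧ x ∈ convexHull ℝ (q '' (T : Set σ)) := by
  classical
  set u : σ → ℝ × (Fin d → ℝ) := fun s => ((1 : ℝ), q s) with hu
  let K : Set (σ → ℝ) := stdSimplex ℝ σ ∩ {w | ∑ s, w s • q s = x}
  have hK : IsCompact K := (isCompact_stdSimplex ℝ σ).inter_right
    (isClosed_eq (by fun_prop) continuous_const)
  have hKne : K.Nonempty := by
    rw [conv_range] at hx
    obtain ⟨w, hw, e⟩ := hx
    exact ⟨w, hw, e⟩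
  have hKiff : ∀ w : σ → ℝ, w ∈ K ↔ (∀ s, 0 ≤ w s) ∧ ∑ s, w s • u s = ((1 : ℝ), x) := by
    intro w
    simp only [K, Set.mem_inter_iff, stdSimplex, Set.mem_ofPred_eq, hu, Prod.ext_iff,
      Prod.fst_sum, Prod.snd_sum, Prod.smul_fst, Prod.smul_snd, smul_eq_mul, mul_one, and_assoc]
  obtain ⟨w, hwK, hmin⟩ := hK.exists_isMinOn hKne
    (f := fun w : σ → ℝ => ∑ s, w s * h s) (by fun_prop)
  obtain ⟨hw0, hwx⟩ := (hKiff w).1 hwK
  let T1 : Finset σ := Finset.univ.filter fun s => w s ≠ 0
  have hT1 : Submodule.span ℝ (u '' (T1 : Set σ)) = ⊤ := by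
    apply hgen
    rw [← hwx]
    refine Submodule.sum_mem _ fun s _ => ?_
    by_cases hs : w s = 0
    · rw [hs, zero_smul]; exact Submodule.zero_mem _
    · exact Submodule.smul_mem _ _ (Submodule.subset_span ⟨s, by simp [T1, hs], rfl⟩)
  obtain ⟨b, hb1, -, hb3, hb4⟩ := exists_linearIndepOn_extension (K := ℝ) (v := u)
    (s := ∅) (t := (T1 : Set σ)) (linearIndepOn_empty _ _) (Set.empty_subset _)
  let T0 : Finset σ := (Set.toFinite b).toFinset
  have hT0 : (T0 : Set σ) = b := Set.Finite.coe_toFinset _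
  have hspan : Submodule.span ℝ (u '' (T0 : Set σ)) = ⊤ := by
    rw [hT0, eq_top_iff, ← hT1]
    exact Submodule.span_le.2 hb3
  have hli : LinearIndependent ℝ (fun t : T0 => u t) := by
    have : LinearIndepOn ℝ u (T0 : Set σ) := hT0 ▸ hb4
    exact this
  let B : Module.Basis T0 ℝ (ℝ × (Fin d → ℝ)) := Module.Basis.mk hli (by
    rw [← hspan]
    apply le_of_eq
    congr 1
    ext y
    simp)
  have hB : ∀ t : T0, B t = u t := fun t => Module.Basis.mk_apply _ _ _
  have hcard : T0.card = d + 1 := by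
    have := Module.finrank_eq_card_basis B
    simp at this
    omega
  let l : (ℝ × (Fin d → ℝ)) →ₗ[ℝ] ℝ := B.constr ℝ (fun t => h t)
  have hl : ∀ t ∈ T0, l (u t) = h t := by
    intro t ht
    have := B.constr_basis ℝ (fun t : T0 => h t) ⟨t, ht⟩
    rw [hB] at this
    exact this
  have hpos : ∀ t ∈ T0, 0 < w t := by
    intro t ht
    have : t ∈ (T1 : Set σ) := hb1 (hT0 ▸ ht)
    simp only [T1, Finset.coe_filter, Finset.mem_univ, true_and, Set.mem_ofPred_eq] at this
    exact lt_of_le_of_ne (hw0 t) (Ne.symm this)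
  have key : ∀ s, s ∉ T0 → l (u s) < h s ∧ w s = 0 := by
    intro s hs
    have hex : ∃ a : σ → ℝ, u s = ∑ t ∈ T0, a t • u t := by
      refine ⟨fun t => if ht : t ∈ T0 then B.repr (u s) ⟨t, ht⟩ else 0, ?_⟩
      conv_lhs => rw [← B.sum_repr (u s)]
      rw [← Finset.sum_coe_sort T0]
      refine Finset.sum_congr rfl fun t _ => ?_
      simp [hB]
    obtain ⟨a, ha1, ha2⟩ := hh T0 s hs hex
    have hls : l (u s) = ∑ t ∈ T0, a t * h t := by
      have : u s = ∑ t ∈ T0, a t • u t := ha1
      rw [this, map_sum]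
      refine Finset.sum_congr rfl fun t ht => ?_
      rw [map_smul, hl t ht, smul_eq_mul]
    let δ : σ → ℝ := fun r => (if r = s then 1 else 0) - (if r ∈ T0 then a r else 0)
    have hδu : ∑ r, δ r • u r = 0 := by
      simp only [δ, sub_smul, Finset.sum_sub_distrib, ite_smul, one_smul, zero_smul,
        Finset.sum_ite_eq', Finset.mem_univ, if_true, Finset.sum_ite_mem, Finset.univ_inter]
      exact sub_eq_zero.2 ha1
    have hδh : ∑ r, δ r * h r = h s - l (u s) := by
      simp only [δ, sub_mul, Finset.sum_sub_distrib, ite_mul, one_mul, zero_mul,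
        Finset.sum_ite_eq', Finset.mem_univ, if_true, Finset.sum_ite_mem, Finset.univ_inter, hls]
    have hev : ∀ᶠ ε in nhds (0 : ℝ), ∀ t ∈ T0, 0 < w t - ε * a t := by
      rw [Filter.eventually_all_finset]
      intro t ht
      have hc : Continuous fun ε : ℝ => w t - ε * a t := by fun_prop
      have := hc.continuousAt (x := 0)
      refine this.eventually (lt_mem_nhds ?_)
      simpa using hpos t ht
    have hpert : ∀ ε : ℝ, (∀ t ∈ T0, 0 < w t - ε * a t) → 0 ≤ w s + ε →
        0 ≤ ε * (h s - l (u s)) := by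
      intro ε h1 h2
      have hmem : (fun r => w r + ε * δ r) ∈ K := by
        rw [hKiff]
        constructor
        · intro r
          by_cases hr : r = s
          · subst hr
            simp only [δ, if_true, hs, if_false, sub_zero, mul_one]
            exact h2
          · by_cases hr' : r ∈ T0
            · simp only [δ, hr, if_false, hr', if_true, zero_sub, mul_neg]
              linarith [h1 r hr']
            · simp only [δ, hr, hr', if_false, sub_zero, mul_zero, add_zero]
              exact hw0 r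
        · simp only [add_smul, Finset.sum_add_distrib, mul_smul, ← Finset.smul_sum, hδu,
            smul_zero, add_zero, hwx]
      have := hmin hmem
      simp only [Set.mem_ofPred_eq, add_mul, Finset.sum_add_distrib, mul_assoc,
        ← Finset.mul_sum, hδh] at this
      linarith
    have hne : l (u s) ≠ h s := hls ▸ ha2
    have h1 : l (u s) < h s := by
      obtain ⟨ε, hε1, hε2⟩ := ((hev.filter_mono (nhdsWithin_le_nhds (s := Set.Ioi 0))).and
        self_mem_nhdsWithin).exists
      have hε : 0 < ε := hε2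
      have := hpert ε hε1 (by linarith [hw0 s])
      have := nonneg_of_mul_nonneg_right this hε |> fun _ => (mul_nonneg_iff_of_pos_left hε).1 this
      exact lt_of_le_of_ne (by linarith) hne
    refine ⟨h1, ?_⟩
    by_contra hws
    have hws' : 0 < w s := lt_of_le_of_ne (hw0 s) (Ne.symm hws)
    have hev2 : ∀ᶠ ε in nhds (0 : ℝ), -w s < ε := lt_mem_nhds (by linarith)
    obtain ⟨ε, ⟨hε1, hε3⟩, hε2⟩ := (((hev.and hev2).filter_mono
      (nhdsWithin_le_nhds (s := Set.Iio 0))).and self_mem_nhdsWithin).exists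
    have hε : ε < 0 := hε2
    have := hpert ε hε1 (by linarith)
    nlinarith
  refine ⟨T0, ⟨hcard, l, hl, fun s hs => (key s hs).1⟩, ?_⟩
  have hx' : x = ∑ t ∈ T0, w t • q t := by
    rw [← hwK.2]
    symm
    apply Finset.sum_subset (Finset.subset_univ _)
    intro s _ hs
    rw [(key s hs).2, zero_smul]
  have hsum : ∑ t ∈ T0, w t = 1 := by
    rw [← hwK.1.2]
    apply Finset.sum_subset (Finset.subset_univ _)
    intro s _ hs
    exact (key s hs).2
  rw [hx']
  exact (convex_convexHull ℝ _).sum_mem (fun t _ => hw0 t) hsum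
    (fun t ht => subset_convexHull ℝ _ ⟨t, ht, rfl⟩)

lemma low_le {d : ℕ} {σ : Type} (q : σ → (Fin d → ℝ)) (T : Finset σ)
    (l l' : (ℝ × (Fin d → ℝ)) →ₗ[ℝ] ℝ) (hl : ∀ t ∈ T, l (1, q t) ≤ l' (1, q t))
    (x : Fin d → ℝ) (hx : x ∈ convexHull ℝ (q '' (T : Set σ))) : l (1, x) ≤ l' (1, x) := by
  have : convexHull ℝ (q '' (T : Set σ)) ⊆ {x | l (1, x) ≤ l' (1, x)} := by
    apply convexHull_min
    · rintro _ ⟨t, ht, rfl⟩
      exact hl t ht
    · intro y hy z hz a b ha hb hab
      simp only [Set.mem_ofPred_eq] at hy hz ⊢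
      have e : ((1 : ℝ), a • y + b • z) = a • ((1 : ℝ), y) + b • ((1 : ℝ), z) := by
        ext <;> simp [hab]
      rw [e]
      simp only [map_add, map_smul, smul_eq_mul]
      gcongr
  exact this hx

lemma low_disjoint {d : ℕ} {σ : Type} (q : σ → (Fin d → ℝ)) (h : σ → ℝ) (T T' : Finset σ)
    (hT : Low q h T) (hT' : Low q h T') (hne : T ≠ T') :
    volume (convexHull ℝ (q '' (T : Set σ)) ∩ convexHull ℝ (q '' (T' : Set σ))) = 0 := by
  classical
  obtain ⟨hc, l, hl1, hl2⟩ := hT
  obtain ⟨hc', l', hl1', hl2'⟩ := hT'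
  have hle : ∀ s, l (1, q s) ≤ h s := fun s => by
    by_cases hs : s ∈ T
    · exact (hl1 s hs).le
    · exact (hl2 s hs).le
  have hle' : ∀ s, l' (1, q s) ≤ h s := fun s => by
    by_cases hs : s ∈ T'
    · exact (hl1' s hs).le
    · exact (hl2' s hs).le
  have : ∃ s ∈ T', s ∉ T := by
    by_contra hcon
    push Not at hcon
    exact hne (Finset.eq_of_subset_of_card_le hcon (by omega)).symm
  obtain ⟨s, hs', hs⟩ := this
  refine measure_mono_null ?_ (null_fun (l - l') ?_)
  · rintro x ⟨hx, hx'⟩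
    have h1 := low_le q T' l l' (fun t ht => (hle t).trans (hl1' t ht).ge) x hx'
    have h2 := low_le q T l' l (fun t ht => (hle' t).trans (hl1 t ht).ge) x hx
    simp only [Set.mem_ofPred_eq, LinearMap.sub_apply]
    linarith
  · intro h0
    have := LinearMap.congr_fun h0 (1, q s)
    simp only [LinearMap.sub_apply, LinearMap.zero_apply] at this
    have h1 := hl2 s hs
    have h2 := hl1' s hs'
    linarith

/-- The normalised volume of a polytope is a sum of absolute determinants of simplices whose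
vertices are among the given points. -/
theorem normVol_mem {d : ℕ} {σ : Type} [Fintype σ] (q : σ → (Fin d → ℝ)) (R : AddSubmonoid ℝ)
    (hR : ∀ v : Fin (d + 1) → σ, |(Matrix.of fun i => q (v (Fin.succ i)) - q (v 0)).det| ∈ R) :
    (d.factorial : ℝ) * volume.real (convexHull ℝ (Set.range q)) ∈ R := by
  classical
  obtain ⟨h, hh⟩ := exists_generic (fun s => ((1 : ℝ), q s))
  let 𝒯 : Finset (Finset σ) := Finset.univ.filter (Low q h)
  have hcomp : ∀ T : Finset σ, IsCompact (convexHull ℝ (q '' (T : Set σ))) := fun T =>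
    (T.finite_toSet.image q).isCompact_convexHull ℝ
  have hvol : volume (convexHull ℝ (Set.range q)) =
      ∑ T ∈ 𝒯, volume (convexHull ℝ (q '' (T : Set σ))) := by
    rw [← measure_biUnion_finset₀]
    · apply le_antisymm
      · let N : Set (Fin d → ℝ) := ⋃ T : {T : Finset σ //
          Submodule.span ℝ ((fun s => ((1 : ℝ), q s)) '' (T : Set σ)) ≠ ⊤},
          {x | ((1 : ℝ), x) ∈ Submodule.span ℝ ((fun s => ((1 : ℝ), q s)) '' (T.1 : Set σ))}
        have hN : volume N = 0 := by
          refine measure_iUnion_null fun T => ?_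
          obtain ⟨f, hf, hf'⟩ := Submodule.exists_le_ker_of_lt_top _ (lt_top_iff_ne_top.2 T.2)
          exact measure_mono_null (fun x hx => hf' hx) (null_fun f hf)
        calc _ ≤ volume ((⋃ T ∈ 𝒯, convexHull ℝ (q '' (T : Set σ))) ∪ N) := by
              refine measure_mono fun x hx => ?_
              by_cases hxN : x ∈ N
              · exact Or.inr hxN
              · left
                obtain ⟨T, hT1, hT2⟩ := cover q h hh x hx (fun T hT => by
                  by_contra hne
                  exact hxN (Set.mem_iUnion.2 ⟨⟨T, hne⟩, hT⟩))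
                exact Set.mem_biUnion (by simpa [𝒯] using hT1) hT2
          _ ≤ _ := by
              refine (measure_union_le _ _).trans ?_
              rw [hN, add_zero]
      · refine measure_mono (Set.iUnion₂_subset fun T _ => convexHull_mono ?_)
        exact Set.image_subset_range _ _
    · intro T hT T' hT' hne
      exact low_disjoint q h T T' (by simpa [𝒯] using hT) (by simpa [𝒯] using hT') hne
    · intro T _
      exact (hcomp T).measurableSet.nullMeasurableSet
  rw [Measure.real, hvol, ENNReal.toReal_sum (fun T _ => (hcomp T).measure_lt_top.ne),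
    Finset.mul_sum]
  refine R.sum_mem fun T hT => ?_
  have hc : T.card = d + 1 := (show Low q h T by simpa [𝒯] using hT).1
  let e : Fin (d + 1) ≃ T := (T.equivFinOfCardEq hc).symm
  have : q '' (T : Set σ) = Set.range (fun i => q (e i)) := by
    ext y
    constructor
    · rintro ⟨t, ht, rfl⟩
      exact ⟨e.symm ⟨t, ht⟩, by simp⟩
    · rintro ⟨i, rfl⟩
      exact ⟨e i, (e i).2, rfl⟩
  rw [this]
  have h2 := vol_simplex (fun i => q (e i))
  rw [Measure.real] at h2
  rw [h2]
  exact hR (fun i => e i)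

end Pool.Agent.H470Z.Ehr
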