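import Pool.Agent.H470Z.EhrAlg
import Pool.Agent.H470Z.EhrTriang

set_option autoImplicit false
open Matrix MeasureTheory
open scoped BigOperators Pointwise

namespace Pool.Agent.H470Z.Ehr

lemma cast_mulVec {m k : Type} [Fintype k] (M : Matrix m k ℤ) (v : k → ℤ) :
    (M.map (Int.cast : ℤ → ℝ)) *ᵥ (fun i => (v i : ℝ)) = fun i => ((M *ᵥ v) i : ℝ) := by
  ext i
  simp [Matrix.mulVec, dotProduct]

lemma cast_mul {m k l : Type} [Fintype k] (M : Matrix m k ℤ) (N : Matrix k l ℤ) :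
    (M.map (Int.cast : ℤ → ℝ)) * (N.map (Int.cast : ℤ → ℝ)) = (M * N).map (Int.cast : ℤ → ℝ) := by
  ext i j
  simp [Matrix.mul_apply]

lemma cast_one {m : Type} [DecidableEq m] :
    (1 : Matrix m m ℤ).map (Int.cast : ℤ → ℝ) = 1 := by
  ext i j
  simp [Matrix.one_apply]

lemma count_tendsto {d : ℕ} (Q : Set (Fin d → ℝ)) (hQ : IsCompact Q) (hc : Convex ℝ Q)
    (ind : ℕ) (hind : 0 < ind) :
    Filter.Tendsto (fun m : ℕ =>
      (Set.ncard {z : Fin d → ℤ | (fun i => (z i : ℝ)) ∈ (((m * ind : ℕ) : ℝ)) • Q} : ℝ) /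
        (((m * ind : ℕ) : ℝ)) ^ d) Filter.atTop (nhds (volume.real Q)) := by
  have h := tendsto_card_div_pow_atTop_volume Q hQ.isBounded hQ.measurableSet
    (hc.addHaar_frontier volume)
  have h2 : Filter.Tendsto (fun m : ℕ => m * ind) Filter.atTop Filter.atTop :=
    Filter.tendsto_id.atTop_mul_const' hind
  have h3 := h.comp h2
  refine h3.congr' ?_
  filter_upwards [Filter.eventually_gt_atTop 0] with m hm
  have hk : ((m * ind : ℕ) : ℝ) ≠ 0 := by
    have : 0 < m * ind := Nat.mul_pos hm hind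
    exact_mod_cast this.ne'
  simp only [Function.comp, Fintype.card_fin]
  congr 2
  set k : ℝ := ((m * ind : ℕ) : ℝ)
  rw [Nat.card_coe_set_eq]
  symm
  refine Set.ncard_congr (fun z _ => k⁻¹ • (fun i => (z i : ℝ))) ?_ ?_ ?_
  · intro z hz
    refine ⟨(Set.mem_smul_set_iff_inv_smul_mem₀ hk _ _).1 hz, ?_⟩
    refine Submodule.smul_mem_pointwise_smul _ _ _ ?_
    rw [Module.Basis.mem_span_iff_repr_mem]
    intro i
    exact ⟨z i, by simp⟩
  · intro a b _ _ hab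
    have := smul_right_injective _ (inv_ne_zero hk) hab
    ext i
    exact_mod_cast congrFun this i
  · rintro x ⟨hx1, hx2⟩
    obtain ⟨y, hy, rfl⟩ := hx2
    have hy' := (Module.Basis.mem_span_iff_repr_mem ℤ (Pi.basisFun ℝ (Fin d)) y).1 hy
    choose z hz using hy'
    have e : (fun i => (z i : ℝ)) = y := by
      ext i
      simpa using hz i
    refine ⟨z, ?_, ?_⟩
    · rw [Set.mem_ofPred_eq, Set.mem_smul_set_iff_inv_smul_mem₀ hk, e]
      exact hx1
    · rw [e]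

theorem main :
    ∀ (n : ℕ) (G : Type) [Group G] [Fintype G]
      (ρ : G →* Matrix.GeneralLinearGroup (Fin n) ℤ) (t : G → (Fin n → ℤ)),
      (∀ g h : G, t (g * h) = (ρ g).val.mulVec (t h) + t g) →
      ∀ (S : Finset (Fin n → ℤ)) (P : Set (Fin n → ℝ)),
      P = convexHull ℝ ((fun (z : Fin n → ℤ) (i : Fin n) => (z i : ℝ)) '' (S : Set (Fin n → ℤ))) →
      affineSpan ℝ P = ⊤ →
      (∀ g : G, (fun x : Fin n → ℝ =>
          ((ρ g).val.map (Int.cast : ℤ → ℝ)).mulVec x + (fun i => (t g i : ℝ))) '' P = P) →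
      ∀ g : G,
      ∀ Pg : Set (Fin n → ℝ),
      Pg = {x : Fin n → ℝ | x ∈ P ∧
        ((ρ g).val.map (Int.cast : ℤ → ℝ)).mulVec x + (fun i => (t g i : ℝ)) = x} →
      ∀ ind : ℕ,
      ind = sInf {k : ℕ | 0 < k ∧ ∃ z : Fin n → ℤ,
        (fun i => (z i : ℝ)) ∈ affineSpan ℝ ((k : ℝ) • Pg)} →
      ∀ d : ℕ, d = Module.finrank ℝ (affineSpan ℝ Pg).direction →
      ∀ D : ℤ,
      D = Polynomial.eval 1 (Polynomial.divByMonic (ρ g).val.charpoly
            ((Polynomial.X - Polynomial.C (1 : ℤ)) ^ ((ρ g).val.charpoly.rootMultiplicity 1))) →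
      ∃ N : ℕ, Filter.Tendsto
        (fun m : ℕ => (d.factorial : ℝ) *
          ((Set.ncard {z : Fin n → ℤ |
              (fun i => (z i : ℝ)) ∈ (((m * ind : ℕ) : ℝ)) • Pg} : ℝ) /
            (((m * ind : ℕ) : ℝ)) ^ d) * (D : ℝ) / (ind : ℝ))
        Filter.atTop (nhds (N : ℝ)) := by
  intro n G _ _ ρ t ht S P hP hspan hinv g Pg hPg ind hind d hd D hD
  classical
  obtain ⟨d', e, U, U', B, C, hUU', hU'U, hblk, hchar, hinj⟩ := exists_block (ρ g).val
  set A : Matrix (Fin n) (Fin n) ℤ := (ρ g).val with hA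
  set N := Fintype.card G with hN
  have hNpos : 0 < N := Fintype.card_pos
  have hgN : g ^ N = 1 := pow_card_eq_one
  have hAN : A ^ N = 1 := by
    rw [hA, ← Units.val_pow_eq_pow_val, ← map_pow, hgN, map_one, Units.val_one]
  have hconj : ∀ k : ℕ, (U' * A * U) ^ k = U' * A ^ k * U := by
    intro k
    induction k with
    | zero => simp [hU'U]
    | succ k ih =>
      rw [pow_succ, ih, pow_succ]
      simp only [Matrix.mul_assoc]
      rw [← Matrix.mul_assoc U U', hUU', Matrix.one_mul]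
  have hpow : (fromBlocks (1 : Matrix (Fin d') (Fin d') ℤ) B 0 C) ^ N = 1 := by
    rw [← hblk, hconj, hAN, Matrix.mul_one, hU'U]
  have hDpos : 0 < (1 - C).det := det_pos B C hNpos hpow hinj
  have hDeq : D = (1 - C).det := by rw [hD, hchar, D_eq B C hDpos.ne']
  -- real versions
  set Ar := A.map (Int.cast : ℤ → ℝ) with hAr
  set Ur := U.map (Int.cast : ℤ → ℝ) with hUr
  set Vr := U'.map (Int.cast : ℤ → ℝ) with hVr
  set Br := B.map (Int.cast : ℤ → ℝ) with hBr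
  set Cr := C.map (Int.cast : ℤ → ℝ) with hCr
  set tr : Fin n → ℝ := fun i => (t g i : ℝ) with htr
  have hUV : Ur * Vr = 1 := by rw [hUr, hVr, cast_mul, hUU', cast_one]
  have hVU : Vr * Ur = 1 := by rw [hUr, hVr, cast_mul, hU'U, cast_one]
  have hVA : Vr * Ar = (fromBlocks 1 Br 0 Cr :
      Matrix (Fin d' ⊕ Fin e) (Fin d' ⊕ Fin e) ℝ) * Vr := by
    have h1 : Vr * Ar * Ur = fromBlocks 1 Br 0 Cr := by
      rw [hVr, hAr, hUr, cast_mul, cast_mul, hblk, Matrix.fromBlocks_map, cast_one]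
      congr 1
      ext i j; simp
    rw [← h1, Matrix.mul_assoc (Vr * Ar), hUV, Matrix.mul_one]
  have hdetr : (1 - Cr).det = (D : ℝ) := by
    rw [hDeq, Int.cast_det]
    congr 1
    ext i j
    simp [hCr, Matrix.one_apply]
  have hDr : (0 : ℝ) < D := by rw [hDeq]; exact_mod_cast hDpos
  have hunit : IsUnit (1 - Cr).det := by rw [hdetr]; exact hDr.ne'.isUnit
  let t1 : Fin d' → ℤ := fun i => (U' *ᵥ t g) (Sum.inl i)
  let t2 : Fin e → ℤ := fun i => (U' *ᵥ t g) (Sum.inr i)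
  let c1 : (Fin n → ℝ) →ₗ[ℝ] (Fin d' → ℝ) :=
    (LinearMap.funLeft ℝ ℝ Sum.inl).comp (Matrix.toLin' Vr)
  let c2 : (Fin n → ℝ) →ₗ[ℝ] (Fin e → ℝ) :=
    (LinearMap.funLeft ℝ ℝ Sum.inr).comp (Matrix.toLin' Vr)
  have hc1 : ∀ x, c1 x = (Vr *ᵥ x) ∘ Sum.inl := fun x => rfl
  have hc2 : ∀ x, c2 x = (Vr *ᵥ x) ∘ Sum.inr := fun x => rfl
  have hc1z : ∀ z : Fin n → ℤ, c1 (fun i => (z i : ℝ)) = fun i => ((U' *ᵥ z) (Sum.inl i) : ℝ) := by
    intro z; rw [hc1, hVr, cast_mulVec]; rfl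
  have hc2z : ∀ z : Fin n → ℤ, c2 (fun i => (z i : ℝ)) = fun i => ((U' *ᵥ z) (Sum.inr i) : ℝ) := by
    intro z; rw [hc2, hVr, cast_mulVec]; rfl
  have hrec : ∀ x, Ur *ᵥ (Sum.elim (c1 x) (c2 x)) = x := by
    intro x
    rw [hc1, hc2, Sum.elim_comp_inl_inr, Matrix.mulVec_mulVec, hUV, Matrix.one_mulVec]
  have hc1U : ∀ a b, c1 (Ur *ᵥ (Sum.elim a b)) = a := by
    intro a b
    rw [hc1, Matrix.mulVec_mulVec, hVU, Matrix.one_mulVec, Sum.elim_comp_inl]
  have hc2U : ∀ a b, c2 (Ur *ᵥ (Sum.elim a b)) = b := by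
    intro a b
    rw [hc2, Matrix.mulVec_mulVec, hVU, Matrix.one_mulVec, Sum.elim_comp_inr]
  have hT1 : ∀ x, c1 (Ar *ᵥ x + tr) = c1 x + Br *ᵥ c2 x + fun i => (t1 i : ℝ) := by
    intro x
    rw [map_add, hc1z, hc1 (Ar *ᵥ x), Matrix.mulVec_mulVec, hVA, ← Matrix.mulVec_mulVec,
      Matrix.fromBlocks_mulVec, Sum.elim_comp_inl, Matrix.one_mulVec]
    rfl
  have hT2 : ∀ x, c2 (Ar *ᵥ x + tr) = Cr *ᵥ c2 x + fun i => (t2 i : ℝ) := by
    intro x
    rw [map_add, hc2z, hc2 (Ar *ᵥ x), Matrix.mulVec_mulVec, hVA, ← Matrix.mulVec_mulVec,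
      Matrix.fromBlocks_mulVec, Sum.elim_comp_inr, Matrix.zero_mulVec, zero_add]
    rfl
  let y0 : Fin e → ℝ := (1 - Cr)⁻¹ *ᵥ fun i => (t2 i : ℝ)
  have hy2 : (1 - Cr) *ᵥ y0 = fun i => (t2 i : ℝ) := by
    simp only [y0]
    rw [Matrix.mulVec_mulVec, Matrix.mul_nonsing_inv _ hunit, Matrix.one_mulVec]
  have hfix2 : ∀ x, Ar *ᵥ x + tr = x → c2 x = y0 := by
    intro x hx
    have h1 := hT2 x
    rw [hx] at h1
    have h2 : (1 - Cr) *ᵥ c2 x = fun i => (t2 i : ℝ) := by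
      rw [Matrix.sub_mulVec, Matrix.one_mulVec]
      exact sub_eq_of_eq_add' h1
    simp only [y0]
    rw [← h2, Matrix.mulVec_mulVec, Matrix.nonsing_inv_mul _ hunit, Matrix.one_mulVec]
  -- the affine action has finite order
  have ht1 : t 1 = 0 := by
    have := ht 1 1
    rw [mul_one, map_one, Units.val_one, Matrix.one_mulVec] at this
    simpa using this
  have hiter : ∀ (k : ℕ) x, (fun x => Matrix.toLin' Ar x + tr)^[k] x =
      ((ρ (g ^ k)).val.map (Int.cast : ℤ → ℝ)) *ᵥ x + fun i => (t (g ^ k) i : ℝ) := by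
    intro k x
    induction k with
    | zero =>
      rw [pow_zero, map_one, Units.val_one, cast_one, Matrix.one_mulVec, ht1]
      ext i; simp
    | succ k ih =>
      rw [Function.iterate_succ_apply', ih, pow_succ', ht, map_mul, Units.val_mul, ← cast_mul,
        Matrix.toLin'_apply, Matrix.mulVec_add, Matrix.mulVec_mulVec, hAr, cast_mulVec, add_assoc]
      congr 1
      ext i; simp [htr, hA]
  have hTN : ∀ x, (fun x => Matrix.toLin' Ar x + tr)^[N] x = x := by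
    intro x
    rw [hiter, hgN, map_one, Units.val_one, cast_one, Matrix.one_mulVec, ht1]
    ext i; simp
  have hPconv : Convex ℝ P := hP ▸ convex_convexHull ℝ _
  have hPT : ∀ x ∈ P, Matrix.toLin' Ar x + tr ∈ P := by
    intro x hx
    rw [← hinv g]
    exact ⟨x, hx, rfl⟩
  have hPne : P.Nonempty := AffineSubspace.nonempty_of_affineSpan_eq_top ℝ _ _ hspan
  have hy1 : Br *ᵥ y0 = fun i => ((-t1 i : ℤ) : ℝ) := by
    obtain ⟨p, hp⟩ := hPne
    obtain ⟨a, -, ha, -⟩ := avg (Matrix.toLin' Ar) tr N hNpos hTN P hPconv hPT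
      (0 : (Fin n → ℝ) →ₗ[ℝ] ℝ) (fun _ => rfl) p hp
    have h1 := hT1 a
    rw [Matrix.toLin'_apply] at ha
    rw [ha, hfix2 a ha, add_assoc] at h1
    have h2 : Br *ᵥ y0 + (fun i => (t1 i : ℝ)) = 0 := by simpa using h1
    ext i
    have := congrFun h2 i
    simp only [Pi.add_apply, Pi.zero_apply] at this
    push_cast
    linarith
  have hfix : ∀ x, Ar *ᵥ x + tr = x ↔ c2 x = y0 := by
    intro x
    refine ⟨hfix2 x, fun hx => ?_⟩
    rw [← hrec (Ar *ᵥ x + tr), hT1, hT2, hx, hy1, ← hy2]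
    conv_rhs => rw [← hrec x, hx]
    congr 2
    · ext i; simp
    · rw [Matrix.sub_mulVec, Matrix.one_mulVec]; abel
  let L : Matrix (Fin d') (Fin e) ℝ := Br * (1 - Cr)⁻¹
  let prL : (Fin n → ℝ) →ₗ[ℝ] (Fin d' → ℝ) := c1 + (Matrix.toLin' L).comp c2
  have hprL : ∀ x, prL x = c1 x + L *ᵥ c2 x := fun x => rfl
  have hprT : ∀ x, prL (Matrix.toLin' Ar x + tr) = prL x := by
    intro x
    rw [Matrix.toLin'_apply, hprL, hprL, hT1, hT2, Matrix.mulVec_add]
    have h1 : L *ᵥ (fun i => (t2 i : ℝ)) = fun i => ((-t1 i : ℤ) : ℝ) := by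
      rw [← hy1]
      simp only [L, y0, Matrix.mulVec_mulVec]
    have h2 : L *ᵥ c2 x = Br *ᵥ c2 x + L *ᵥ (Cr *ᵥ c2 x) := by
      have h3 : L * (1 - Cr) = Br := by
        simp only [L]
        rw [Matrix.mul_assoc, Matrix.nonsing_inv_mul _ hunit, Matrix.mul_one]
      rw [← h3, ← Matrix.mulVec_mulVec (c2 x) L (1 - Cr), Matrix.sub_mulVec, Matrix.one_mulVec,
        Matrix.mulVec_sub]
      abel
    rw [h1, h2]
    ext i
    simp only [Pi.add_apply]
    push_cast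
    ring
  let pr : (Fin n → ℝ) →ᵃ[ℝ] (Fin d' → ℝ) :=
    prL.toAffineMap + AffineMap.const ℝ (Fin n → ℝ) (-(L *ᵥ y0))
  have hpr : ∀ x, pr x = prL x - L *ᵥ y0 := fun x => by
    simp [pr, sub_eq_add_neg]
  have hprfix : ∀ x, c2 x = y0 → pr x = c1 x := fun x hx => by
    rw [hpr, hprL, hx, add_sub_cancel_right]
  let q : S → (Fin d' → ℝ) := fun s => pr (fun i => (s.1 i : ℝ))
  set Q := convexHull ℝ (Set.range q) with hQ
  have hQP : Q = pr '' P := by
    rw [hP, AffineMap.image_convexHull, hQ]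
    congr 1
    ext y
    simp [q]
  let ψL : (Fin d' → ℝ) →ₗ[ℝ] (Fin n → ℝ) :=
    { toFun := fun a => Ur *ᵥ (Sum.elim a 0)
      map_add' := fun a b => by
        rw [← Matrix.mulVec_add]; congr 1; ext (i | i) <;> simp
      map_smul' := fun c a => by
        rw [RingHom.id_apply, ← Matrix.mulVec_smul]; congr 1; ext (i | i) <;> simp }
  let ψ : (Fin d' → ℝ) →ᵃ[ℝ] (Fin n → ℝ) :=
    ψL.toAffineMap + AffineMap.const ℝ (Fin d' → ℝ) (Ur *ᵥ (Sum.elim 0 y0))
  have hψ : ∀ a, ψ a = Ur *ᵥ (Sum.elim a y0) := fun a => by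
    have : ψ a = Ur *ᵥ (Sum.elim a 0) + Ur *ᵥ (Sum.elim 0 y0) := rfl
    rw [this, ← Matrix.mulVec_add]
    congr 1
    ext (i | i) <;> simp
  have hPgQ : Pg = ψ '' Q := by
    rw [hQP, hPg]
    ext x
    constructor
    · rintro ⟨hx1, hx2⟩
      have h2 := (hfix x).1 hx2
      exact ⟨pr x, ⟨x, hx1, rfl⟩, by rw [hψ, hprfix x h2, ← h2, hrec]⟩
    · rintro ⟨_, ⟨p, hp, rfl⟩, rfl⟩
      obtain ⟨a, ha1, ha2, ha3⟩ := avg (Matrix.toLin' Ar) tr N hNpos hTN P hPconv hPT prL hprT p hp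
      rw [Matrix.toLin'_apply] at ha2
      have h2 := (hfix a).1 ha2
      have : ψ (pr p) = a := by
        rw [hpr, ← ha3, ← hpr, hψ, hprfix a h2, ← h2, hrec]
      rw [this]
      exact ⟨ha1, ha2⟩
  have hprsurj : Function.Surjective pr := fun a =>
    ⟨Ur *ᵥ (Sum.elim a y0), by rw [hprfix _ (hc2U _ _), hc1U]⟩
  have hspanQ : affineSpan ℝ Q = ⊤ := by
    rw [hQP, ← AffineSubspace.map_span, hspan]
    exact AffineMap.map_top_of_surjective _ hprsurj
  have hdd : d = d' := by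
    rw [hd, hPgQ, ← AffineSubspace.map_span, hspanQ, AffineSubspace.map_direction,
      AffineSubspace.direction_top, Submodule.map_top]
    have hinjψ : Function.Injective ψ.linear := by
      have : ψ.linear = ψL := by simp [ψ]
      rw [this]
      intro a b hab
      have h1 : Ur *ᵥ (Sum.elim a 0) = Ur *ᵥ (Sum.elim b 0) := hab
      rw [← hc1U a 0, h1, hc1U]
    rw [LinearMap.finrank_range_of_inj hinjψ]
    simp
  have hspank : ∀ (k : ℕ), 0 < k → ∀ x, x ∈ affineSpan ℝ ((k : ℝ) • Pg) ↔ c2 x = (k : ℝ) • y0 := by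
    intro k hk x
    have hk' : (k : ℝ) ≠ 0 := by exact_mod_cast hk.ne'
    have h1 : (k : ℝ) • Pg = ((k : ℝ) • ψ) '' Q := by
      rw [hPgQ, ← Set.image_smul, Set.image_image]
      rfl
    rw [h1, ← AffineSubspace.map_span, hspanQ, AffineSubspace.mem_map]
    constructor
    · rintro ⟨a, -, rfl⟩
      have : ((k : ℝ) • ψ) a = (k : ℝ) • ψ a := rfl
      rw [this, map_smul, hψ, hc2U]
    · intro hx
      refine ⟨(k : ℝ)⁻¹ • c1 x, AffineSubspace.mem_top _ _ _, ?_⟩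
      have : ((k : ℝ) • ψ) ((k : ℝ)⁻¹ • c1 x) = (k : ℝ) • ψ ((k : ℝ)⁻¹ • c1 x) := rfl
      rw [this, hψ, ← Matrix.mulVec_smul]
      conv_rhs => rw [← hrec x, hx]
      congr 1
      ext (i | i)
      · simp [hk']
      · simp
  have hset : {k : ℕ | 0 < k ∧ ∃ z : Fin n → ℤ,
      (fun i => (z i : ℝ)) ∈ affineSpan ℝ ((k : ℝ) • Pg)} =
      {k : ℕ | 0 < k ∧ ∀ j, ∃ z : ℤ, (z : ℝ) = k * y0 j} := by
    ext k
    simp only [Set.mem_ofPred_eq]
    refine and_congr_right fun hk => ?_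
    constructor
    · rintro ⟨z, hz⟩ j
      rw [hspank k hk, hc2z] at hz
      exact ⟨_, congrFun hz j⟩
    · intro h
      choose w hw using h
      refine ⟨U *ᵥ (Sum.elim 0 w), ?_⟩
      rw [hspank k hk, hc2z, Matrix.mulVec_mulVec, hU'U, Matrix.one_mulVec]
      ext j
      simp [hw]
  rw [hset] at hind
  have hindmem : 0 < ind ∧ ∀ j, ∃ z : ℤ, (z : ℝ) = ind * y0 j := by
    have hne : {k : ℕ | 0 < k ∧ ∀ j, ∃ z : ℤ, (z : ℝ) = k * y0 j}.Nonempty := by
      refine ⟨D.toNat, ?_, fun j => ?_⟩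
      · have : 0 < D := by exact_mod_cast hDr
        omega
      · have hD0 : 0 ≤ D := by exact_mod_cast hDr.le
        have h1 : ((D.toNat : ℕ) : ℝ) = D := by exact_mod_cast Int.toNat_of_nonneg hD0
        refine ⟨((1 - C).adjugate *ᵥ t2) j, ?_⟩
        rw [h1]
        have h2 := congrFun (cast_mulVec (1 - C).adjugate t2) j
        rw [← h2, ← hy2, Matrix.mulVec_mulVec]
        have h3 : (1 - Cr) = (1 - C).map (Int.cast : ℤ → ℝ) := by
          ext i j; simp [hCr, Matrix.one_apply]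
        rw [h3, cast_mul, Matrix.adjugate_mul, ← hDeq]
        have h4 : (D • (1 : Matrix (Fin e) (Fin e) ℤ)).map (Int.cast : ℤ → ℝ) = (D : ℝ) • 1 := by
          ext a b
          simp only [Matrix.map_apply, Matrix.smul_apply, Matrix.one_apply]
          split_ifs <;> simp
        rw [h4, Matrix.smul_mulVec, Matrix.one_mulVec]
        rfl
    have := Nat.sInf_mem hne
    rw [← hind] at this
    exact this
  obtain ⟨hindpos, hindint⟩ := hindmem
  have hindr : (0 : ℝ) < ind := by exact_mod_cast hindpos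
  have hdvd : ∀ X : ℤ, (∀ j, ∃ z : ℤ, (z : ℝ) = X * y0 j) → (ind : ℤ) ∣ X := by
    intro X hX
    by_contra hnd
    have hi : (0 : ℤ) < ind := by exact_mod_cast hindpos
    have h1 : 0 ≤ X % ind := Int.emod_nonneg _ hi.ne'
    have h2 : X % ind < ind := Int.emod_lt_of_pos _ hi
    have h3 : X % ind ≠ 0 := fun h => hnd (Int.dvd_of_emod_eq_zero h)
    have h4 : (X % ind).toNat < sInf {k : ℕ | 0 < k ∧ ∀ j, ∃ z : ℤ, (z : ℝ) = k * y0 j} := by
      rw [← hind]; omega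
    apply Nat.notMem_of_lt_sInf h4
    refine ⟨by omega, fun j => ?_⟩
    obtain ⟨z1, hz1⟩ := hX j
    obtain ⟨z2, hz2⟩ := hindint j
    refine ⟨z1 - z2 * (X / ind), ?_⟩
    have h5 : (((X % ind).toNat : ℕ) : ℝ) = ((X % ind : ℤ) : ℝ) := by
      exact_mod_cast Int.toNat_of_nonneg h1
    rw [h5, Int.emod_def]
    push_cast
    rw [hz1, hz2]
    ring
  -- the volume
  let R : AddSubmonoid ℝ :=
    { carrier := {r | ∃ M : ℕ, r * D / ind = M}
      add_mem' := by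
        rintro a b ⟨M, hM⟩ ⟨M', hM'⟩
        refine ⟨M + M', ?_⟩
        push_cast
        rw [← hM, ← hM']
        ring
      zero_mem' := ⟨0, by simp⟩ }
  have hvol : (d'.factorial : ℝ) * volume.real Q ∈ R := by
    refine normVol_mem q R fun v => ?_
    let u : Fin d' → (Fin n → ℤ) := fun i => (v (Fin.succ i)).1 - (v 0).1
    let X1 : Matrix (Fin d') (Fin d') ℝ := Matrix.of fun a i => ((U' *ᵥ u i) (Sum.inl a) : ℝ)
    let X2 : Matrix (Fin e) (Fin d') ℝ := Matrix.of fun a i => ((U' *ᵥ u i) (Sum.inr a) : ℝ)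
    set Y : Matrix (Fin d') (Fin d') ℝ := Matrix.of fun i => q (v (Fin.succ i)) - q (v 0) with hY
    have hYt : Y.transpose = X1 + L * X2 := by
      ext a i
      have h1 : q (v (Fin.succ i)) - q (v 0) = prL (fun r => (u i r : ℝ)) := by
        simp only [q, hpr, sub_sub_sub_cancel_right, ← map_sub]
        congr 1
        ext r; simp [u]
      rw [Matrix.transpose_apply, hY, Matrix.of_apply, h1, hprL, hc1z, hc2z]
      simp [X1, X2, Matrix.mul_apply, Matrix.mulVec, dotProduct]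
    obtain ⟨X, hX1, hX2⟩ := key_div B C y0 (fun i => -t1 i) t2 hy1 hy2 Y.transpose
      ((1 - Cr)⁻¹ * X2)
      (fun i j => by
        rw [hYt, ← Matrix.mul_assoc, add_sub_cancel_right]
        exact ⟨_, rfl⟩)
      (fun i j => by
        rw [← Matrix.mul_assoc, Matrix.mul_nonsing_inv _ hunit, Matrix.one_mul]
        exact ⟨_, rfl⟩)
    obtain ⟨M, hM⟩ := hdvd X hX2
    refine ⟨M.natAbs, ?_⟩
    rw [hdetr, Matrix.det_transpose, hM] at hX1
    have h1 : |Y.det| * D = ind * |(M : ℝ)| := by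
      rw [← abs_of_pos hDr, ← abs_mul, mul_comm, ← hX1]
      push_cast
      rw [abs_mul, abs_of_pos hindr]
    rw [h1, Nat.cast_natAbs]
    push_cast
    field_simp
  obtain ⟨M, hM⟩ := hvol
  refine ⟨M, ?_⟩
  rw [← hM, hdd]
  have hQc : IsCompact Q := (Set.finite_range q).isCompact_convexHull ℝ
  have hlim := count_tendsto Q hQc (convex_convexHull ℝ _) ind hindpos
  refine Filter.Tendsto.congr' ?_
    (((hlim.const_mul (d'.factorial : ℝ)).mul_const (D : ℝ)).div_const (ind : ℝ))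
  filter_upwards [Filter.eventually_gt_atTop 0] with m hm
  congr 5
  have hk : ((m * ind : ℕ) : ℝ) ≠ 0 := by
    have : 0 < m * ind := Nat.mul_pos hm hindpos
    exact_mod_cast this.ne'
  set k : ℝ := ((m * ind : ℕ) : ℝ) with hkdef
  choose w hw using hindint
  have hkw : (fun j => (((m : ℤ) * w j : ℤ) : ℝ)) = k • y0 := by
    ext j
    simp only [hkdef, Pi.smul_apply, smul_eq_mul]
    push_cast
    rw [hw]; ring
  have hcast : ∀ z : Fin d' → ℤ,
      (fun i => ((U *ᵥ (Sum.elim z (fun j => (m : ℤ) * w j))) i : ℝ)) =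
      Ur *ᵥ (Sum.elim (fun i => (z i : ℝ)) (k • y0)) := by
    intro z
    rw [← cast_mulVec, ← hkw]
    congr 1
    ext (i | i) <;> simp
  have hψk : ∀ a, k • ψ a = Ur *ᵥ (Sum.elim (k • a) (k • y0)) := by
    intro a
    rw [hψ, ← Matrix.mulVec_smul]
    congr 1
    ext (i | i) <;> simp
  refine Set.ncard_congr (fun z _ => U *ᵥ (Sum.elim z (fun j => (m : ℤ) * w j))) ?_ ?_ ?_
  · rintro z ⟨a, ha, haz⟩
    rw [Set.mem_ofPred_eq, hcast, hPgQ]
    refine ⟨ψ a, ⟨a, ha, rfl⟩, ?_⟩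
    simp only at haz ⊢
    rw [hψk, haz]
  · intro a b _ _ hab
    have h1 := congrArg (fun z => U' *ᵥ z) hab
    simp only [Matrix.mulVec_mulVec, hU'U, Matrix.one_mulVec] at h1
    ext i
    exact congrFun h1 (Sum.inl i)
  · intro z hz
    rw [Set.mem_ofPred_eq, hPgQ] at hz
    obtain ⟨_, ⟨a, ha, rfl⟩, haz⟩ := hz
    simp only at haz
    rw [hψk] at haz
    have h1 : k • a = fun i => ((U' *ᵥ z) (Sum.inl i) : ℝ) := by
      rw [← hc1z, ← haz, hc1U]
    refine ⟨fun i => (U' *ᵥ z) (Sum.inl i), ⟨a, ha, h1⟩, ?_⟩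
    have h2 := hcast (fun i => (U' *ᵥ z) (Sum.inl i))
    rw [← h1, haz] at h2
    ext i
    exact_mod_cast congrFun h2 i

end Pool.Agent.H470Z.Ehr
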