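import Mathlib

set_option autoImplicit false
open MeasureTheory

namespace Pool.Agent.H470Z.RandSub

variable {G : Type} [CommGroup G]

/-- extension property of a two-colouring of a group -/
def EP (f : G → Bool) : Prop :=
  ∀ (B : Finset G) (c : G → Bool), ∃ w, w ∉ B ∧ ∀ b ∈ B, f (w * b) = c b

/-- a finite symmetric colour preserving graph of a homomorphism -/
structure Good (f : G → Bool) (Γ : Subgroup (G × G)) : Prop where
  fin : (Γ : Set (G × G)).Finite
  symm : ∀ a b, (a, b) ∈ Γ → (b, a) ∈ Γ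
  func : ∀ b, (1, b) ∈ Γ → b = 1
  col : ∀ a b, (a, b) ∈ Γ → f a = f b

lemma good_bot (f : G → Bool) : Good f ⊥ := by
  refine ⟨by simp, ?_, ?_, ?_⟩
  · intro a b h
    simp only [Subgroup.mem_bot, Prod.mk_eq_one] at h ⊢
    exact ⟨h.2, h.1⟩
  · intro b h
    simp only [Subgroup.mem_bot, Prod.mk_eq_one] at h
    exact h.2
  · intro a b h
    simp only [Subgroup.mem_bot, Prod.mk_eq_one] at h
    rw [h.1, h.2]

lemma step_new (h2 : ∀ g : G, g * g = 1) {f : G → Bool} (hf : EP f) {Γ : Subgroup (G × G)}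
    (hΓ : Good f Γ) (v : G) (hv : ∀ b, (v, b) ∉ Γ) :
    ∃ Γ' : Subgroup (G × G), Good f Γ' ∧ Γ ≤ Γ' ∧ ∃ w, w ≠ v ∧ (v, w) ∈ Γ' := by
  classical
  have hinv : ∀ g : G, g⁻¹ = g := fun g => inv_eq_of_mul_eq_one_left (h2 g)
  set D : Finset G := hΓ.fin.toFinset.image Prod.fst with hD
  have hmemD : ∀ a, a ∈ D ↔ ∃ b, (a, b) ∈ Γ := by
    intro a
    simp [hD]
  set B : Finset G := D ∪ D.image (fun a => a * v) with hB
  let c : G → Bool := fun b => if h : ∃ a, (b, a) ∈ Γ then f (h.choose * v) else true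
  obtain ⟨w, hwB, hw⟩ := hf B c
  have huniq : ∀ a b b', (a, b) ∈ Γ → (a, b') ∈ Γ → b = b' := by
    intro a b b' h h'
    have := Γ.mul_mem h h'
    simp only [Prod.mk_mul_mk, h2] at this
    have := hΓ.func _ this
    rw [← hinv b']
    exact eq_inv_of_mul_eq_one_left this
  have hc1 : ∀ a b, (a, b) ∈ Γ → f (w * b) = f (a * v) := by
    intro a b h
    have hb : ∃ a, (b, a) ∈ Γ := ⟨a, hΓ.symm _ _ h⟩
    rw [hw b (Finset.mem_union_left _ ((hmemD b).2 hb))]
    simp only [c, dif_pos hb]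
    rw [huniq b _ _ hb.choose_spec (hΓ.symm _ _ h)]
  have hc2 : ∀ a b, (a, b) ∈ Γ → f (w * (a * v)) = true := by
    intro a b h
    rw [hw (a * v) (Finset.mem_union_right _ (Finset.mem_image_of_mem _ ((hmemD a).2 ⟨b, h⟩)))]
    have : ¬ ∃ x, (a * v, x) ∈ Γ := by
      rintro ⟨x, hx⟩
      have := Γ.mul_mem h hx
      simp only [Prod.mk_mul_mk, ← mul_assoc, h2, one_mul] at this
      exact hv _ this
    simp only [c, dif_neg this]
  have hwD : ∀ a b, (a, b) ∈ Γ → w ≠ a := by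
    intro a b h e
    exact hwB (Finset.mem_union_left _ (e ▸ (hmemD a).2 ⟨b, h⟩))
  have hwD' : ∀ a b, (a, b) ∈ Γ → w ≠ a * v := by
    intro a b h e
    exact hwB (Finset.mem_union_right _ (e ▸ Finset.mem_image_of_mem _ ((hmemD a).2 ⟨b, h⟩)))
  let x : G × G := (v, w)
  let y : G × G := (w, v)
  have hpp : ∀ p : G × G, p * p = 1 := fun p => Prod.ext (h2 _) (h2 _)
  have hpinv : ∀ p : G × G, p⁻¹ = p := fun p => inv_eq_of_mul_eq_one_left (hpp p)
  let Γ' : Subgroup (G × G) :=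
    { carrier := {p | ∃ γ ∈ Γ, ∃ i j : ℕ, p = γ * x ^ i * y ^ j}
      mul_mem' := by
        rintro _ _ ⟨γ, hγ, i, j, rfl⟩ ⟨γ', hγ', i', j', rfl⟩
        refine ⟨γ * γ', Γ.mul_mem hγ hγ', i + i', j + j', ?_⟩
        simp only [pow_add, mul_assoc, mul_comm, mul_left_comm]
      one_mem' := ⟨1, Γ.one_mem, 0, 0, by simp⟩
      inv_mem' := by
        intro p hp
        rw [hpinv]; exact hp }
  have hpow : ∀ (p : G × G) (i : ℕ), p ^ i = 1 ∨ p ^ i = p := by
    intro p i
    induction i with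
    | zero => left; simp
    | succ n ih =>
      rcases ih with h | h
      · right; rw [pow_succ, h, one_mul]
      · left; rw [pow_succ, h, hpp]
  have hcases : ∀ p, p ∈ Γ' → ∃ a b, (a, b) ∈ Γ ∧ (p = (a, b) ∨ p = (a * v, b * w) ∨
      p = (a * w, b * v) ∨ p = (a * v * w, b * w * v)) := by
    rintro p ⟨⟨a, b⟩, hγ, i, j, rfl⟩
    refine ⟨a, b, hγ, ?_⟩
    rcases hpow x i with h | h <;> rcases hpow y j with h' | h' <;> rw [h, h'] <;> simp [x, y]
  refine ⟨Γ', ⟨?_, ?_, ?_, ?_⟩, ?_, w, ?_, ?_⟩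
  · refine Set.Finite.subset (((hΓ.fin.union (hΓ.fin.image (· * x))).union
      (hΓ.fin.image (· * y))).union (hΓ.fin.image (· * x * y))) ?_
    intro p hp
    obtain ⟨a, b, h, rfl | rfl | rfl | rfl⟩ := hcases p hp
    · exact Or.inl (Or.inl (Or.inl h))
    · exact Or.inl (Or.inl (Or.inr ⟨_, h, rfl⟩))
    · exact Or.inl (Or.inr ⟨_, h, rfl⟩)
    · exact Or.inr ⟨_, h, rfl⟩
  · rintro a b ⟨⟨a', b'⟩, hγ, i, j, e⟩
    refine ⟨(b', a'), hΓ.symm _ _ hγ, j, i, ?_⟩
    simp only [x, y, Prod.pow_mk, Prod.mk_mul_mk, Prod.mk.injEq] at e ⊢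
    obtain ⟨rfl, rfl⟩ := e
    constructor <;> simp only [mul_assoc, mul_comm, mul_left_comm]
  · intro b hb
    obtain ⟨a', b', h, e | e | e | e⟩ := hcases _ hb <;> simp only [Prod.mk.injEq] at e
    · obtain ⟨rfl, rfl⟩ := e
      exact hΓ.func _ h
    · exfalso
      have : v = a' := by
        rw [← hinv a']; exact eq_inv_of_mul_eq_one_right e.1.symm
      exact hv b' (this ▸ h)
    · exfalso
      have : w = a' := by
        rw [← hinv a']; exact eq_inv_of_mul_eq_one_right e.1.symm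
      exact hwD _ _ h this
    · exfalso
      have : w = a' * v := by
        rw [← hinv (a' * v)]; exact eq_inv_of_mul_eq_one_right e.1.symm
      exact hwD' _ _ h this
  · intro a b hb
    obtain ⟨a', b', h, e | e | e | e⟩ := hcases _ hb <;> simp only [Prod.mk.injEq] at e <;>
      obtain ⟨rfl, rfl⟩ := e
    · exact hΓ.col _ _ h
    · rw [mul_comm b' w, hc1 _ _ h]
    · rw [mul_comm a' w, hc1 _ _ (hΓ.symm _ _ h)]
    · have e1 := hc2 _ _ h
      have e2 := hc2 _ _ (hΓ.symm _ _ h)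
      rw [mul_comm (a' * v) w, e1, mul_right_comm b' w v, mul_comm (b' * v) w, e2]
  · intro p hp
    exact ⟨p, hp, 0, 0, by simp⟩
  · intro e
    exact hwD' 1 1 Γ.one_mem (by rw [e, one_mul])
  · exact ⟨1, Γ.one_mem, 1, 0, by simp [x]⟩

lemma step (h2 : ∀ g : G, g * g = 1) {f : G → Bool} (hf : EP f) {Γ : Subgroup (G × G)}
    (hΓ : Good f Γ) (v : G) :
    ∃ Γ' : Subgroup (G × G), Good f Γ' ∧ Γ ≤ Γ' ∧ ∃ w, (v, w) ∈ Γ' := by
  by_cases hv : ∃ b, (v, b) ∈ Γ
  · exact ⟨Γ, hΓ, le_rfl, hv⟩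
  · push Not at hv
    obtain ⟨Γ', h1, h2, w, _, h3⟩ := step_new h2 hf hΓ v hv
    exact ⟨Γ', h1, h2, w, h3⟩

theorem exists_aut [Countable G] [Infinite G] (h2 : ∀ g : G, g * g = 1) {f : G → Bool}
    (hf : EP f) : ∃ φ : MulAut G, φ ≠ 1 ∧ ∀ g : G, f (φ g) = f g := by
  classical
  have hinv : ∀ g : G, g⁻¹ = g := fun g => inv_eq_of_mul_eq_one_left (h2 g)
  obtain ⟨v0, hv0⟩ := exists_ne (1 : G)
  obtain ⟨Γ0, hΓ0, -, w0, hw0, hvw0⟩ := step_new h2 hf (good_bot f) v0 (by
    intro b h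
    simp only [Subgroup.mem_bot, Prod.mk_eq_one] at h
    exact hv0 h.1)
  obtain ⟨e, he⟩ := exists_surjective_nat G
  choose F hF1 hF2 hF3 using fun (Γ : {Γ : Subgroup (G × G) // Good f Γ}) (v : G) =>
    step h2 hf Γ.2 v
  let S : ℕ → {Γ : Subgroup (G × G) // Good f Γ} := fun n =>
    Nat.rec ⟨Γ0, hΓ0⟩ (fun n Γ => ⟨F Γ (e n), hF1 Γ (e n)⟩) n
  have hS : Monotone (fun n => (S n).1) := monotone_nat_of_le_succ fun n => hF2 (S n) (e n)
  let R : G → G → Prop := fun a b => ∃ n, (a, b) ∈ (S n).1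
  have hmul : ∀ a b a' b', R a b → R a' b' → R (a * a') (b * b') := by
    rintro a b a' b' ⟨n, h⟩ ⟨m, h'⟩
    exact ⟨max n m, (S (max n m)).1.mul_mem (hS (le_max_left n m) h) (hS (le_max_right n m) h')⟩
  have hsymm : ∀ a b, R a b → R b a := fun a b ⟨n, h⟩ => ⟨n, (S n).2.symm _ _ h⟩
  have huniq : ∀ a b b', R a b → R a b' → b = b' := by
    intro a b b' h h'
    obtain ⟨n, hn⟩ := hmul _ _ _ _ h h'
    rw [h2] at hn
    have := (S n).2.func _ hn
    rw [← hinv b']
    exact eq_inv_of_mul_eq_one_left this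
  have htot : ∀ a, ∃ b, R a b := by
    intro a
    obtain ⟨n, rfl⟩ := he a
    obtain ⟨w, hw⟩ := hF3 (S n) (e n)
    exact ⟨w, n + 1, hw⟩
  choose φ hφ using htot
  have hφφ : ∀ a, φ (φ a) = a := fun a => huniq _ _ _ (hφ (φ a)) (hsymm _ _ (hφ a))
  refine ⟨{ toFun := φ, invFun := φ, left_inv := hφφ, right_inv := hφφ, map_mul' := ?_ }, ?_, ?_⟩
  · intro a b
    exact huniq _ _ _ (hφ (a * b)) (hmul _ _ _ _ (hφ a) (hφ b))
  · intro h
    have h1 : φ v0 = v0 := by
      have := congrArg (fun ψ : MulAut G => ψ v0) h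
      simpa using this
    exact hw0 ((huniq v0 _ _ ⟨0, hvw0⟩ (hφ v0)).trans h1)
  · intro g
    obtain ⟨n, hn⟩ := hφ g
    exact ((S n).2.col _ _ hn).symm

/-- translates of a finite set that are pairwise disjoint -/
lemma exists_seq [Infinite G] (B : Finset G) :
    ∃ w : ℕ → G, (∀ n, w n ∉ B) ∧ Function.Injective (fun p : ℕ × B => w p.1 * p.2) := by
  classical
  have key : ∀ T : Finset G, ∃ u, u ∉ B ∧ ∀ t ∈ T, ∀ a ∈ B, ∀ b ∈ B, u * a ≠ t * b := by
    intro T
    obtain ⟨u, hu⟩ := Infinite.exists_notMem_finset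
      (B ∪ ((T ×ˢ B ×ˢ B).image fun q => q.1 * q.2.2 * q.2.1⁻¹))
    refine ⟨u, fun h => hu (Finset.mem_union_left _ h), fun t ht a ha b hb e => hu ?_⟩
    refine Finset.mem_union_right _ (Finset.mem_image.2 ⟨(t, a, b), by simp [ht, ha, hb], ?_⟩)
    simp only
    rw [← e]; simp
  choose u hu1 hu2 using key
  let T : ℕ → Finset G := fun n => Nat.rec ∅ (fun _ T => insert (u T) T) n
  have hT : Monotone T := monotone_nat_of_le_succ fun n => Finset.subset_insert _ _
  have hmem : ∀ m n, m < n → u (T m) ∈ T n := fun m n h =>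
    hT (Nat.succ_le_of_lt h) (Finset.mem_insert_self _ _)
  refine ⟨fun n => u (T n), fun n => hu1 _, ?_⟩
  rintro ⟨m, a⟩ ⟨n, b⟩ h
  simp only at h
  rcases lt_trichotomy m n with hl | rfl | hl
  · exact absurd h.symm (hu2 _ _ (hmem _ _ hl) _ b.2 _ a.2)
  · have := mul_left_cancel h
    rw [Subtype.ext this]
  · exact absurd h (hu2 _ _ (hmem _ _ hl) _ a.2 _ b.2)

lemma null_bad [Infinite G] (B : Finset G) (c : G → Bool) :
    Measure.infinitePi (fun _ : G => (PMF.uniformOfFintype Bool).toMeasure)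
      {f : G → Bool | ¬ ∃ w, w ∉ B ∧ ∀ b ∈ B, f (w * b) = c b} = 0 := by
  classical
  obtain ⟨w, hwB, hinj⟩ := exists_seq B
  set ν : Measure Bool := (PMF.uniformOfFintype Bool).toMeasure with hν
  set π : Measure (B → Bool) := Measure.infinitePi (fun _ : B => ν) with hπ
  let c0 : B → Bool := fun b => c b
  have hc0 : π {c0} ≠ 0 := by
    have : ({c0} : Set (B → Bool)) =
        Set.pi ((Finset.univ : Finset B) : Set B) (fun b => {c0 b}) := by
      ext g
      simp [funext_iff]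
    rw [this, hπ, Measure.infinitePi_pi _ (fun _ _ => MeasurableSet.singleton _)]
    refine Finset.prod_ne_zero_iff.2 fun b _ => ?_
    rw [hν, PMF.toMeasure_apply_singleton _ _ (MeasurableSet.singleton _)]
    simp
  have hq : π {c0}ᶜ < 1 := by
    rw [prob_compl_eq_one_sub (MeasurableSet.singleton _)]
    exact ENNReal.sub_lt_self ENNReal.one_ne_top one_ne_zero hc0
  let Ψ : (G → Bool) → (ℕ → B → Bool) := fun f n b => f (w n * b)
  have hΨ : (Measure.infinitePi (fun _ : G => ν)).map Ψ =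
      Measure.infinitePi (fun _ : ℕ => π) := by
    have h1 := Measure.map_infinitePi_infinitePi_of_inj (P := fun _ : G => ν) hinj
    have h2 := Measure.infinitePi_map_curry (fun (_ : ℕ) (_ : B) => ν)
    rw [← h2, ← h1, Measure.map_map (by fun_prop) (by fun_prop)]
    rfl
  have hΨm : Measurable Ψ := by fun_prop
  have hle : ∀ N : ℕ, Measure.infinitePi (fun _ : G => ν)
      {f : G → Bool | ¬ ∃ w, w ∉ B ∧ ∀ b ∈ B, f (w * b) = c b} ≤ (π {c0}ᶜ) ^ N := by
    intro N
    have hm : MeasurableSet (Set.pi ((Finset.range N : Finset ℕ) : Set ℕ)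
        (fun _ => ({c0}ᶜ : Set (B → Bool)))) :=
      MeasurableSet.pi (Finset.countable_toSet _) fun _ _ => (MeasurableSet.singleton _).compl
    calc _ ≤ Measure.infinitePi (fun _ : G => ν) (Ψ ⁻¹' (Set.pi ((Finset.range N : Finset ℕ) : Set ℕ)
        (fun _ => ({c0}ᶜ : Set (B → Bool))))) := by
          refine measure_mono fun f hf n _ h => hf ⟨w n, hwB n, fun b hb => ?_⟩
          exact congrFun h ⟨b, hb⟩
      _ = _ := by
          rw [← Measure.map_apply hΨm hm, hΨ,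
            Measure.infinitePi_pi _ (fun _ _ => (MeasurableSet.singleton _).compl)]
          simp
  exact le_antisymm (ge_of_tendsto' (ENNReal.tendsto_pow_atTop_nhds_zero_of_lt_one hq) hle)
    (zero_le)

theorem ae_EP [Countable G] [Infinite G] :
    Measure.infinitePi (fun _ : G => (PMF.uniformOfFintype Bool).toMeasure)
      {f : G → Bool | ¬ EP f} = 0 := by
  classical
  refine measure_mono_null (t := ⋃ p : Finset G × Finset G,
    {f : G → Bool | ¬ ∃ w, w ∉ p.1 ∧ ∀ b ∈ p.1, f (w * b) = decide (b ∈ p.2)}) ?_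
    (measure_iUnion_null fun p => null_bad p.1 _)
  intro f hf
  by_contra h
  simp only [Set.mem_iUnion, Set.mem_setOf_eq, not_exists, not_not] at h
  apply hf
  intro B c
  have := h (B, B.filter (fun b => c b = true))
  push Not at this
  obtain ⟨w, h1, h2⟩ := this
  refine ⟨w, h1, fun b hb => ?_⟩
  rw [h2 b hb]
  simp [hb]

theorem main : ¬ (∀ (G : Type) [Group G] [Countable G] [Infinite G],
      Measure.infinitePi (fun _ : G => (PMF.uniformOfFintype Bool).toMeasure)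
        {f : G → Bool | ∃ φ : MulAut G, φ ≠ 1 ∧ ∀ g : G, f (φ g) = f g} = 0) := by
  intro h
  let G := Multiplicative (ℕ →₀ ZMod 2)
  have h2 : ∀ g : G, g * g = 1 := by
    intro g
    apply Multiplicative.toAdd.injective
    ext n
    change (Multiplicative.toAdd g) n + (Multiplicative.toAdd g) n = 0
    exact CharTwo.add_self_eq_zero _
  haveI : Countable G := inferInstanceAs (Countable (ℕ →₀ ZMod 2))
  haveI : Infinite G := inferInstanceAs (Infinite (ℕ →₀ ZMod 2))
  have h0 := h G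
  have h1 := ae_EP (G := G)
  have : Measure.infinitePi (fun _ : G => (PMF.uniformOfFintype Bool).toMeasure) Set.univ = 0 := by
    refine measure_mono_null ?_ (measure_union_null h0 h1)
    intro f _
    by_cases hf : EP f
    · exact Or.inl (exists_aut h2 hf)
    · exact Or.inr hf
  simp at this

end Pool.Agent.H470Z.RandSub
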